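import Mathlib
import Pool.Agent.H931R3.Bal15

set_option autoImplicit false

/-!
# Average heights in direct sums and after adding an isolated element
-/

open Finset

namespace Pool.Agent.Q289.SPI

open Pool.Agent.H13R3.WB Pool.Agent.H931R3.Bal

/-- average height, counted from one -/
noncomputable def ht (P : Type) [PartialOrder P] (n : ℕ) (x : P) : ℝ :=
  avg P n x (fun i => (i : ℝ) + 1)

section

variable {P : Type} [Fintype P] [PartialOrder P] {n : ℕ}

lemma avg_lin (hn : Fintype.card P = n) (x : P) (a b : ℝ) :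
    avg P n x (fun i => a + b * (i : ℝ)) = a + b * avg P n x (fun i => (i : ℝ)) := by
  have h1 := card_ne hn
  unfold avg
  rw [Finset.sum_add_distrib, ← Finset.mul_sum, Finset.sum_const, Finset.card_univ, nsmul_eq_mul]
  field_simp

lemma avg_id (hn : Fintype.card P = n) (x : P) :
    avg P n x (fun i => (i : ℝ)) = ht P n x - 1 := by
  unfold ht
  have h := avg_lin hn x 1 1
  have e : avg P n x (fun i => (i : ℝ) + 1) = avg P n x (fun i => 1 + 1 * (i : ℝ)) := by
    apply avg_congr
    intro i _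
    ring
  rw [e, h]
  ring

lemma sum_before (f : LEn P n) (x : P) :
    ∑ y, (if f.1 y < f.1 x then (1 : ℝ) else 0) = ((f.1 x : ℕ) : ℝ) := by
  rw [Equiv.sum_comp f.1 (fun k => if k < f.1 x then (1 : ℝ) else 0), Finset.sum_boole]
  congr 1
  have : (univ.filter (fun k : Fin n => k < f.1 x)) = Finset.Iio (f.1 x) := by
    ext k
    simp
  rw [this, Fin.card_Iio]

lemma ht_eq (hn : Fintype.card P = n) (x : P) : ht P n x = 1 + ∑ y, pr P n y x := by
  have h := avg_id hn x
  have e : ∑ y, pr P n y x = avg P n x (fun i => (i : ℝ)) := by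
    unfold pr avg
    rw [← Finset.sum_div, Finset.sum_comm]
    congr 1
    exact Finset.sum_congr rfl fun f _ => sum_before f x
  rw [e, h]
  ring

lemma sum_ht (hn : Fintype.card P = n) : ∑ x, ht P n x = n * (n + 1) / 2 := by
  have h1 := card_ne hn
  unfold ht avg
  rw [← Finset.sum_div, Finset.sum_comm]
  have : ∀ f : LEn P n, ∑ x, (((f.1 x : ℕ) : ℝ) + 1) = n * (n + 1) / 2 := by
    intro f
    rw [Equiv.sum_comp f.1 (fun k => ((k : ℕ) : ℝ) + 1), Fin.sum_univ_eq_sum_range
      (fun k => (k : ℝ) + 1)]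
    clear h1 f hn
    induction n with
    | zero => simp
    | succ n ih =>
      rw [Finset.sum_range_succ, ih]
      push_cast
      ring
  rw [Finset.sum_congr rfl fun f _ => this f, Finset.sum_const, Finset.card_univ, nsmul_eq_mul]
  field_simp

end

section

variable {P Q : Type} [Fintype P] [Fintype Q] [PartialOrder P] [PartialOrder Q] {n m : ℕ}

lemma ht_lex_inl (hn : Fintype.card P = n) (hm : Fintype.card Q = m) (x : P) :
    ht (P ⊕ₗ Q) (n + m) (toLex (Sum.inl x)) = ht P n x := avg_lex_inl hn hm x _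

lemma ht_lex_inr (hn : Fintype.card P = n) (hm : Fintype.card Q = m) (y : Q) :
    ht (P ⊕ₗ Q) (n + m) (toLex (Sum.inr y)) = n + ht Q m y := by
  unfold ht
  rw [avg_lex_inr hn hm]
  have e : avg Q m y (fun i => ((n + i : ℕ) : ℝ) + 1) =
      avg Q m y (fun i => ((n : ℝ) + 1) + 1 * (i : ℝ)) := by
    apply avg_congr
    intro i _
    push_cast
    ring
  rw [e, avg_lin hm, avg_id hm]
  unfold ht
  ring

lemma FF_one {i : ℕ} (hi : i < n) : FF n 1 i 0 = ((n : ℝ) - i) / (n + 1) := by
  rw [FF_eq hi (by norm_num)]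
  congr 1
  · rw [Finset.sum_range_one, Nat.choose_zero_right, one_mul, Nat.sub_zero, Nat.choose_one_right,
      add_zero, Nat.cast_sub (by omega)]
    push_cast
    ring
  · rw [Nat.choose_one_right]
    push_cast
    ring

/-- the probability that `x` comes before the isolated element -/
lemma pr_z (hn : Fintype.card P = n) (x : P) (z : Fin 1) :
    pr (P ⊕ Fin 1) (n + 1) (Sum.inl x) (Sum.inr z) = 1 - ht P n x / (n + 1) := by
  have hz : z = 0 := Subsingleton.elim _ _
  subst hz
  rw [pr_disj_cross hn (by simp) x 0]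
  have hpos : (0 : ℝ) < (n : ℝ) + 1 := by positivity
  have e : avg P n x (fun i => avg (Fin 1) 1 0 (fun j => FF n 1 i j)) =
      avg P n x (fun i => (n : ℝ) / (n + 1) + (-1 / (n + 1)) * (i : ℝ)) := by
    apply avg_congr
    intro i hi
    rw [avg_one, FF_one hi]
    ring
  rw [e, avg_lin hn, avg_id hn]
  field_simp
  ring

lemma pr_z' (hn : Fintype.card P = n) (x : P) (z : Fin 1) :
    pr (P ⊕ Fin 1) (n + 1) (Sum.inr z) (Sum.inl x) = ht P n x / (n + 1) := by
  have h1 := pr_z hn x z
  have h2 : pr (P ⊕ Fin 1) (n + 1) (Sum.inl x) (Sum.inr z) +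
      pr (P ⊕ Fin 1) (n + 1) (Sum.inr z) (Sum.inl x) = 1 :=
    pr_add (by rw [Fintype.card_sum, hn]; simp) (by simp)
  linarith

lemma ht_par_inl (hn : Fintype.card P = n) (x : P) :
    ht (P ⊕ Fin 1) (n + 1) (Sum.inl x) = ht P n x * (n + 2) / (n + 1) := by
  have hc : Fintype.card (P ⊕ Fin 1) = n + 1 := by rw [Fintype.card_sum, hn]; simp
  rw [ht_eq hc, Fintype.sum_sum_type]
  have e1 : ∑ y : P, pr (P ⊕ Fin 1) (n + 1) (Sum.inl y) (Sum.inl x) = ht P n x - 1 := by
    rw [ht_eq hn]
    rw [Finset.sum_congr rfl fun y _ => pr_disj_inl hn (by simp) y x]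
    ring
  rw [e1, Fin.sum_univ_one, pr_z' hn]
  field_simp
  ring

lemma ht_par_inr (hn : Fintype.card P = n) (z : Fin 1) :
    ht (P ⊕ Fin 1) (n + 1) (Sum.inr z) = (n + 2) / 2 := by
  have hc : Fintype.card (P ⊕ Fin 1) = n + 1 := by rw [Fintype.card_sum, hn]; simp
  rw [ht_eq hc, Fintype.sum_sum_type]
  have e1 : ∑ y : P, pr (P ⊕ Fin 1) (n + 1) (Sum.inl y) (Sum.inr z) =
      ∑ y : P, (1 - ht P n y / (n + 1)) :=
    Finset.sum_congr rfl fun y _ => pr_z hn y z
  rw [e1, Finset.sum_sub_distrib, ← Finset.sum_div, sum_ht hn, Finset.sum_const,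
    Finset.card_univ, hn, Fin.sum_univ_one, Subsingleton.elim z 0, pr_self]
  field_simp
  ring

end

lemma ht_iso {P Q : Type} [PartialOrder P] [PartialOrder Q] (e : P ≃o Q) (n : ℕ) (x : P) :
    ht Q n (e x) = ht P n x := avg_iso e n x _

lemma ht_one (x : Fin 1) : ht (Fin 1) 1 x = 1 := by
  rw [Subsingleton.elim x 0]
  unfold ht
  rw [avg_one]
  simp

end Pool.Agent.Q289.SPI
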