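import Mathlib
import Pool.Agent.Q289.SPI.Hts

set_option autoImplicit false

/-!
# Widths of direct sums and of posets with an isolated element
-/

open Finset

namespace Pool.Agent.Q289.SPI

open Pool.Agent.H13R3.WB Pool.Agent.H931R3.Bal

lemma HasWidth.iso {P Q : Type} [PartialOrder P] [PartialOrder Q] (e : P ≃o Q) {w : ℕ}
    (h : HasWidth P w) : HasWidth Q w := by
  classical
  obtain ⟨⟨s, hs, hc⟩, h2⟩ := h
  refine ⟨⟨s.map e.toEquiv.toEmbedding, ?_, by rw [card_map]; exact hc⟩, ?_⟩
  · intro a ha b hb hab hle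
    rw [mem_coe, mem_map] at ha hb
    obtain ⟨a, ha, rfl⟩ := ha
    obtain ⟨b, hb, rfl⟩ := hb
    have hle' : e a ≤ e b := hle
    exact hs ha hb (fun h => hab (by rw [h])) (e.le_iff_le.1 hle')
  · intro t ht
    have := h2 (t.map e.symm.toEquiv.toEmbedding) (by
      intro a ha b hb hab hle
      rw [mem_coe, mem_map] at ha hb
      obtain ⟨a, ha, rfl⟩ := ha
      obtain ⟨b, hb, rfl⟩ := hb
      have hle' : e.symm a ≤ e.symm b := hle
      exact ht ha hb (fun h => hab (by rw [h])) (e.symm.le_iff_le.1 hle'))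
    rwa [card_map] at this

lemma HasWidth.unique {P : Type} [PartialOrder P] {v w : ℕ} (h1 : HasWidth P v)
    (h2 : HasWidth P w) : v = w := by
  obtain ⟨⟨s, hs, hc⟩, h3⟩ := h1
  obtain ⟨⟨t, ht, hd⟩, h4⟩ := h2
  have := h3 t ht
  have := h4 s hs
  omega

lemma width_one' {P : Type} [PartialOrder P] (e : P ≃o Fin 1) : HasWidth P 1 :=
  HasWidth.iso e.symm width_one

lemma HasWidth.lex {A B : Type} [PartialOrder A] [PartialOrder B] {a b : ℕ}
    (hA : HasWidth A a) (hB : HasWidth B b) : HasWidth (A ⊕ₗ B) (max a b) := by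
  classical
  obtain ⟨⟨s, hs, hsc⟩, hA2⟩ := hA
  obtain ⟨⟨t, ht, htc⟩, hB2⟩ := hB
  have el : Function.Injective (fun x : A => (toLex (Sum.inl x) : A ⊕ₗ B)) :=
    fun x y h => Sum.inl_injective (toLex.injective h)
  have er : Function.Injective (fun x : B => (toLex (Sum.inr x) : A ⊕ₗ B)) :=
    fun x y h => Sum.inr_injective (toLex.injective h)
  constructor
  · rcases le_total a b with h | h
    · refine ⟨t.map ⟨_, er⟩, ?_, by rw [card_map, htc, max_eq_right h]⟩
      intro x hx y hy hxy hle
      rw [mem_coe, mem_map] at hx hy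
      obtain ⟨x, hx, rfl⟩ := hx
      obtain ⟨y, hy, rfl⟩ := hy
      exact ht hx hy (fun h => hxy (by rw [h])) (Sum.Lex.inr_le_inr_iff.1 hle)
    · refine ⟨s.map ⟨_, el⟩, ?_, by rw [card_map, hsc, max_eq_left h]⟩
      intro x hx y hy hxy hle
      rw [mem_coe, mem_map] at hx hy
      obtain ⟨x, hx, rfl⟩ := hx
      obtain ⟨y, hy, rfl⟩ := hy
      exact hs hx hy (fun h => hxy (by rw [h])) (Sum.Lex.inl_le_inl_iff.1 hle)
  · intro u hu
    by_cases h : ∃ x : A, toLex (Sum.inl x) ∈ u
    · obtain ⟨x, hx⟩ := h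
      have h1 : ∀ p ∈ u, ∃ y : A, toLex (Sum.inl y) = p := by
        intro p hp
        rcases hq : ofLex p with y | y
        · exact ⟨y, by rw [← hq]; rfl⟩
        · exfalso
          have hp' : p = toLex (Sum.inr y) := by rw [← hq]; rfl
          subst hp'
          exact hu hx hp (by intro h; have := toLex.injective h; simp at this)
            (Sum.Lex.inl_le_inr x y)
      have h2 : u.card = (u.preimage _ (el.injOn)).card := by
        rw [card_preimage]
        congr 1
        ext p
        simp only [mem_filter]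
        exact ⟨fun hp => ⟨hp, h1 p hp⟩, fun hp => hp.1⟩
      rw [h2]
      refine (hA2 _ ?_).trans (le_max_left _ _)
      intro p hp q hq hpq hle
      rw [mem_coe, mem_preimage] at hp hq
      exact hu hp hq (fun h => hpq (el h)) (Sum.Lex.inl_le_inl_iff.2 hle)
    · have h1 : ∀ p ∈ u, ∃ y : B, toLex (Sum.inr y) = p := by
        intro p hp
        rcases hq : ofLex p with y | y
        · exact absurd ⟨y, by rw [← hq]; exact hp⟩ h
        · exact ⟨y, by rw [← hq]; rfl⟩
      have h2 : u.card = (u.preimage _ (er.injOn)).card := by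
        rw [card_preimage]
        congr 1
        ext p
        simp only [mem_filter]
        exact ⟨fun hp => ⟨hp, h1 p hp⟩, fun hp => hp.1⟩
      rw [h2]
      refine (hB2 _ ?_).trans (le_max_right _ _)
      intro p hp q hq hpq hle
      rw [mem_coe, mem_preimage] at hp hq
      exact hu hp hq (fun h => hpq (er h)) (Sum.Lex.inr_le_inr_iff.2 hle)

lemma HasWidth.par {A : Type} [PartialOrder A] {a : ℕ}
    (hA : HasWidth A a) : HasWidth (A ⊕ Fin 1) (a + 1) := by
  classical
  obtain ⟨⟨s, hs, hsc⟩, hA2⟩ := hA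
  have el : Function.Injective (fun x : A => (Sum.inl x : A ⊕ Fin 1)) := Sum.inl_injective
  constructor
  · refine ⟨insert (Sum.inr 0) (s.map ⟨_, el⟩), ?_, ?_⟩
    · intro x hx y hy hxy hle
      rw [mem_coe, mem_insert, mem_map] at hx hy
      rcases hx with rfl | ⟨x, hx, rfl⟩
      · rcases hy with rfl | ⟨y, hy, rfl⟩
        · exact hxy rfl
        · exact Sum.not_inr_le_inl hle
      · rcases hy with rfl | ⟨y, hy, rfl⟩
        · exact Sum.not_inl_le_inr hle
        · exact hs hx hy (fun h => hxy (by rw [h])) (Sum.inl_le_inl_iff.1 hle)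
    · rw [card_insert_of_notMem (by simp), card_map, hsc]
  · intro u hu
    have h2 : (u.erase (Sum.inr 0)).card ≤ (u.preimage _ (el.injOn)).card := by
      rw [card_preimage]
      apply card_le_card
      intro p hp
      rw [mem_erase] at hp
      rw [mem_filter]
      refine ⟨hp.2, ?_⟩
      rcases p with y | y
      · exact ⟨y, rfl⟩
      · exact absurd (by rw [Subsingleton.elim y 0]) hp.1
    have h3 := hA2 (u.preimage _ (el.injOn)) (by
      intro p hp q hq hpq hle
      rw [mem_coe, mem_preimage] at hp hq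
      exact hu hp hq (fun h => hpq (el h)) (Sum.inl_le_inl_iff.2 hle))
    have h4 := pred_card_le_card_erase (s := u) (a := (Sum.inr 0 : A ⊕ Fin 1))
    omega

end Pool.Agent.Q289.SPI
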