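import Mathlib
import Pool.Agent.Q289.SPI.Wid

set_option autoImplicit false

/-!
# Terms for posets built from a point by direct sums and isolated elements

`Rep t P` says that `P` is built according to the term `t`.  The list `fl t` of blocks records
sizes, widths and average heights; heights are fractions, pairs of natural numbers.
-/

open Finset

namespace Pool.Agent.Q289.SPI

open Pool.Agent.H13R3.WB Pool.Agent.H931R3.Bal

/-- terms -/
inductive Tm
  | one : Tm
  | ser : Tm → Tm → Tm
  | par : Tm → Tm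

/-- `P` is built according to the term -/
inductive Rep : Tm → (P : Type) → [PartialOrder P] → Prop
  | one (P : Type) [PartialOrder P] : Nonempty (P ≃o Fin 1) → Rep Tm.one P
  | ser (a b : Tm) (A B P : Type) [PartialOrder A] [PartialOrder B] [PartialOrder P] :
      Rep a A → Rep b B → Nonempty (P ≃o (A ⊕ₗ B)) → Rep (Tm.ser a b) P
  | par (a : Tm) (A P : Type) [PartialOrder A] [PartialOrder P] :
      Rep a A → Nonempty (P ≃o (A ⊕ Fin 1)) → Rep (Tm.par a) P

/-- data of a poset: size, width, average heights as fractions -/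
structure Bk where
  s : ℕ
  w : ℕ
  h : List (ℕ × ℕ)

/-- the value of a fraction -/
noncomputable def val (q : ℕ × ℕ) : ℝ := (q.1 : ℝ) / q.2

/-- add `k` -/
def shift (k : ℕ) (q : ℕ × ℕ) : ℕ × ℕ := (k * q.2 + q.1, q.2)

/-- multiply by `(n + 2) / (n + 1)` -/
def scal (n : ℕ) (q : ℕ × ℕ) : ℕ × ℕ := (q.1 * (n + 2), q.2 * (n + 1))

/-- size of a word -/
def wsz : List Bk → ℕ
  | [] => 0
  | b :: w => b.s + wsz w

/-- width of a word -/
def wwd : List Bk → ℕ
  | [] => 0
  | b :: w => max b.w (wwd w)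

/-- heights in a word starting at `k` -/
def whl : ℕ → List Bk → List (ℕ × ℕ)
  | _, [] => []
  | k, b :: w => b.h.map (shift k) ++ whl (k + b.s) w

/-- a word together with an isolated element -/
def mk (w : List Bk) : Bk :=
  ⟨wsz w + 1, wwd w + 1, (wsz w + 2, 2) :: (whl 0 w).map (scal (wsz w))⟩

/-- the one-element block -/
def b1 : Bk := ⟨1, 1, [(1, 1)]⟩

/-- the blocks of a term -/
def fl : Tm → List Bk
  | .one => [b1]
  | .ser a b => fl a ++ fl b
  | .par a => [mk (fl a)]

/-- the fraction lies in the middle `[p/q (n+1), (1-p/q) (n+1)]` -/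
def Mid (p q n : ℕ) (x : ℕ × ℕ) : Prop :=
  p * (n + 1) * x.2 ≤ q * x.1 ∧ q * x.1 ≤ (q - p) * (n + 1) * x.2

/-- the fraction lies in the open middle -/
def MidS (p q n : ℕ) (x : ℕ × ℕ) : Prop :=
  p * (n + 1) * x.2 < q * x.1 ∧ q * x.1 < (q - p) * (n + 1) * x.2

/-- balance constant less than `p / q` -/
def GLt (p q : ℕ) : Tm → Prop
  | .one => True
  | .ser a b => GLt p q a ∧ GLt p q b
  | .par a => GLt p q a ∧ ∀ x ∈ whl 0 (fl a), ¬ Mid p q (wsz (fl a)) x

/-- balance constant at most `p / q` -/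
def GLe (p q : ℕ) : Tm → Prop
  | .one => True
  | .ser a b => GLe p q a ∧ GLe p q b
  | .par a => GLe p q a ∧ ∀ x ∈ whl 0 (fl a), ¬ MidS p q (wsz (fl a)) x

lemma shift_shift (k j : ℕ) (x : ℕ × ℕ) : shift k (shift j x) = shift (k + j) x := by
  unfold shift
  simp only [Prod.mk.injEq, and_true]
  ring

lemma shift_zero (x : ℕ × ℕ) : shift 0 x = x := by
  unfold shift
  simp

lemma wsz_append (v w : List Bk) : wsz (v ++ w) = wsz v + wsz w := by
  induction v with
  | nil => simp [wsz]
  | cons b v ih => simp only [List.cons_append, wsz, ih]; ring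

lemma wwd_append (v w : List Bk) : wwd (v ++ w) = max (wwd v) (wwd w) := by
  induction v with
  | nil => simp [wwd]
  | cons b v ih => simp only [List.cons_append, wwd, ih, max_assoc]

lemma whl_append (v w : List Bk) : ∀ k, whl k (v ++ w) = whl k v ++ whl (k + wsz v) w := by
  induction v with
  | nil => intro k; simp [whl, wsz]
  | cons b v ih =>
    intro k
    simp only [List.cons_append, whl, ih, wsz, List.append_assoc]
    rw [show k + b.s + wsz v = k + (b.s + wsz v) by ring]

lemma whl_shift (w : List Bk) : ∀ k j, whl (k + j) w = (whl j w).map (shift k) := by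
  induction w with
  | nil => intro k j; simp [whl]
  | cons b w ih =>
    intro k j
    simp only [whl, List.map_append, List.map_map]
    rw [← ih k (j + b.s), show k + j + b.s = k + (j + b.s) by ring]
    congr 1
    apply List.map_congr_left
    intro x _
    simp [shift_shift]

lemma whl_zero (w : List Bk) (k : ℕ) : whl k w = (whl 0 w).map (shift k) := by
  have := whl_shift w k 0
  simpa using this

lemma val_shift {x : ℕ × ℕ} (h : 0 < x.2) (k : ℕ) : val (shift k x) = k + val x := by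
  unfold val shift
  have : (x.2 : ℝ) ≠ 0 := by exact_mod_cast h.ne'
  push_cast
  field_simp

lemma val_scal (n : ℕ) (x : ℕ × ℕ) : val (scal n x) = val x * (n + 2) / (n + 1) := by
  unfold val scal
  push_cast
  exact (mul_div_mul_comm _ _ _ _).trans (mul_div_assoc _ _ _).symm

lemma mid_iff {p q n : ℕ} (hq : 0 < q) (hpq : p ≤ q) {x : ℕ × ℕ} (hx : 0 < x.2) :
    Mid p q n x ↔ (p : ℝ) / q ≤ val x / (n + 1) ∧ (p : ℝ) / q ≤ 1 - val x / (n + 1) := by
  have hq' : (0 : ℝ) < q := by exact_mod_cast hq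
  have hx' : (0 : ℝ) < x.2 := by exact_mod_cast hx
  have hn : (0 : ℝ) < (n : ℝ) + 1 := by positivity
  unfold Mid val
  have e1 : (p : ℝ) / q ≤ (x.1 : ℝ) / x.2 / (n + 1) ↔ p * (n + 1) * x.2 ≤ q * x.1 := by
    rw [div_div, div_le_div_iff₀ hq' (by positivity)]
    constructor
    · intro h
      have : ((p * (n + 1) * x.2 : ℕ) : ℝ) ≤ ((q * x.1 : ℕ) : ℝ) := by push_cast; linarith
      exact_mod_cast this
    · intro h
      have : ((p * (n + 1) * x.2 : ℕ) : ℝ) ≤ ((q * x.1 : ℕ) : ℝ) := by exact_mod_cast h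
      push_cast at this
      linarith
  have e2 : (p : ℝ) / q ≤ 1 - (x.1 : ℝ) / x.2 / (n + 1) ↔
      q * x.1 ≤ (q - p) * (n + 1) * x.2 := by
    have e3 : (p : ℝ) / q ≤ 1 - (x.1 : ℝ) / x.2 / (n + 1) ↔
        (x.1 : ℝ) / (x.2 * (n + 1)) ≤ (q - p) / q := by
      rw [div_div]
      have : ((q : ℝ) - p) / q = 1 - p / q := by field_simp
      rw [this]
      constructor <;> intro h <;> linarith
    rw [e3, div_le_div_iff₀ (by positivity) hq']
    constructor
    · intro h
      have : ((q * x.1 : ℕ) : ℝ) ≤ (((q - p) * (n + 1) * x.2 : ℕ) : ℝ) := by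
        push_cast [Nat.cast_sub hpq]; linarith
      exact_mod_cast this
    · intro h
      have : ((q * x.1 : ℕ) : ℝ) ≤ (((q - p) * (n + 1) * x.2 : ℕ) : ℝ) := by exact_mod_cast h
      push_cast [Nat.cast_sub hpq] at this
      linarith
  rw [e1, e2]

lemma midS_iff {p q n : ℕ} (hq : 0 < q) (hpq : p ≤ q) {x : ℕ × ℕ} (hx : 0 < x.2) :
    MidS p q n x ↔ (p : ℝ) / q < val x / (n + 1) ∧ (p : ℝ) / q < 1 - val x / (n + 1) := by
  have hq' : (0 : ℝ) < q := by exact_mod_cast hq
  have hx' : (0 : ℝ) < x.2 := by exact_mod_cast hx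
  have hn : (0 : ℝ) < (n : ℝ) + 1 := by positivity
  unfold MidS val
  have e1 : (p : ℝ) / q < (x.1 : ℝ) / x.2 / (n + 1) ↔ p * (n + 1) * x.2 < q * x.1 := by
    rw [div_div, div_lt_div_iff₀ hq' (by positivity)]
    constructor
    · intro h
      have : ((p * (n + 1) * x.2 : ℕ) : ℝ) < ((q * x.1 : ℕ) : ℝ) := by push_cast; linarith
      exact_mod_cast this
    · intro h
      have : ((p * (n + 1) * x.2 : ℕ) : ℝ) < ((q * x.1 : ℕ) : ℝ) := by exact_mod_cast h
      push_cast at this
      linarith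
  have e2 : (p : ℝ) / q < 1 - (x.1 : ℝ) / x.2 / (n + 1) ↔
      q * x.1 < (q - p) * (n + 1) * x.2 := by
    have e3 : (p : ℝ) / q < 1 - (x.1 : ℝ) / x.2 / (n + 1) ↔
        (x.1 : ℝ) / (x.2 * (n + 1)) < (q - p) / q := by
      rw [div_div]
      have : ((q : ℝ) - p) / q = 1 - p / q := by field_simp
      rw [this]
      constructor <;> intro h <;> linarith
    rw [e3, div_lt_div_iff₀ (by positivity) hq']
    constructor
    · intro h
      have : ((q * x.1 : ℕ) : ℝ) < (((q - p) * (n + 1) * x.2 : ℕ) : ℝ) := by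
        push_cast [Nat.cast_sub hpq]; linarith
      exact_mod_cast this
    · intro h
      have : ((q * x.1 : ℕ) : ℝ) < (((q - p) * (n + 1) * x.2 : ℕ) : ℝ) := by exact_mod_cast h
      push_cast [Nat.cast_sub hpq] at this
      linarith
  rw [e1, e2]

/-- everything recorded by the term -/
structure Spec (t : Tm) (P : Type) [Fintype P] [PartialOrder P] : Prop where
  ne : Nonempty P
  card : Fintype.card P = wsz (fl t)
  wid : HasWidth P (wwd (fl t))
  pos : ∀ q ∈ whl 0 (fl t), 0 < q.2
  h1 : ∀ x : P, ∃ q ∈ whl 0 (fl t), ht P (wsz (fl t)) x = val q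
  h2 : ∀ q ∈ whl 0 (fl t), ∃ x : P, ht P (wsz (fl t)) x = val q
  lo : ∀ p q : ℕ, 0 < q → p ≤ q → balance P < (p : ℝ) / q → GLt p q t
  up : ∀ p q : ℕ, 0 < q → p ≤ q → GLe p q t → balance P ≤ (p : ℝ) / q

lemma Spec.iso {t : Tm} {P Q : Type} [Fintype P] [PartialOrder P] [Fintype Q] [PartialOrder Q]
    (h : Spec t P) (e : P ≃o Q) : Spec t Q := by
  have hne := h.ne
  have hneQ : Nonempty Q := hne.map e
  refine ⟨hneQ, ?_, HasWidth.iso e h.wid, h.pos, ?_, ?_, ?_, ?_⟩
  · rw [← Fintype.card_congr e.toEquiv]; exact h.card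
  · intro x
    obtain ⟨q, hq, hx⟩ := h.h1 (e.symm x)
    refine ⟨q, hq, ?_⟩
    rw [← hx, ← ht_iso e, OrderIso.apply_symm_apply]
  · intro q hq
    obtain ⟨x, hx⟩ := h.h2 q hq
    exact ⟨e x, by rw [ht_iso, hx]⟩
  · intro p q h1 h2 h3
    exact h.lo p q h1 h2 ((balance_iso e).trans_lt h3)
  · intro p q h1 h2 h3
    exact (balance_iso e.symm).trans (h.up p q h1 h2 h3)

lemma balance_le_pairs {P : Type} [Fintype P] [PartialOrder P] [Nonempty P] {n : ℕ}
    (hn : Fintype.card P = n) {c : ℝ} (h : ∀ x y : P, min (pr P n x y) (pr P n y x) ≤ c) :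
    balance P ≤ c := by
  unfold balance
  apply ciSup_le
  rintro ⟨x, y⟩
  simp only
  rw [prob_eq hn, prob_eq hn]
  exact h x y

lemma pairs_le {P : Type} [Fintype P] [PartialOrder P] {n : ℕ} (hn : Fintype.card P = n)
    (x y : P) : min (pr P n x y) (pr P n y x) ≤ balance P := by
  have := le_balance x y
  rwa [prob_eq hn, prob_eq hn] at this

theorem spec_one : Spec Tm.one (Fin 1) := by
  refine ⟨⟨0⟩, by simp [fl, wsz, b1], ?_, ?_, ?_, ?_, ?_, ?_⟩
  · have : wwd (fl Tm.one) = 1 := by simp [fl, wwd, b1]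
    rw [this]
    exact width_one
  · intro q hq
    simp only [fl, whl, b1, List.map_cons, List.map_nil, List.append_nil, List.mem_singleton] at hq
    rw [hq]
    simp [shift]
  · intro x
    refine ⟨(1, 1), by simp [fl, whl, b1, shift], ?_⟩
    have : wsz (fl Tm.one) = 1 := by simp [fl, wsz, b1]
    rw [this, ht_one]
    simp [val]
  · intro q hq
    simp only [fl, whl, b1, List.map_cons, List.map_nil, List.append_nil, List.mem_singleton] at hq
    refine ⟨0, ?_⟩
    have : wsz (fl Tm.one) = 1 := by simp [fl, wsz, b1]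
    rw [this, ht_one, hq]
    simp [val, shift]
  · intro p q _ _ _
    exact trivial
  · intro p q hq _ _
    have : Nonempty (Fin 1) := ⟨0⟩
    rw [balance_chain (fun x y => Or.inl (by rw [Subsingleton.elim x y]))]
    positivity

theorem spec_ser {a b : Tm} {A B : Type} [Fintype A] [PartialOrder A] [Fintype B] [PartialOrder B]
    (ha : Spec a A) (hb : Spec b B) : Spec (Tm.ser a b) (A ⊕ₗ B) := by
  have nA := ha.ne
  have nB := hb.ne
  have ne : Nonempty (A ⊕ₗ B) := ⟨toLex (Sum.inl nA.some)⟩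
  have ca := ha.card
  have cb := hb.card
  have hc : Fintype.card (A ⊕ₗ B) = wsz (fl a) + wsz (fl b) := by rw [card_lexS, ca, cb]
  have esz : wsz (fl (Tm.ser a b)) = wsz (fl a) + wsz (fl b) := wsz_append _ _
  have ehl : whl 0 (fl (Tm.ser a b)) = whl 0 (fl a) ++ (whl 0 (fl b)).map (shift (wsz (fl a))) := by
    show whl 0 (fl a ++ fl b) = _
    rw [whl_append, zero_add, ← whl_zero]
  refine ⟨ne, by rw [esz, hc], ?_, ?_, ?_, ?_, ?_, ?_⟩
  · show HasWidth _ (wwd (fl a ++ fl b))
    rw [wwd_append]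
    exact HasWidth.lex ha.wid hb.wid
  · intro q hq
    rw [ehl, List.mem_append, List.mem_map] at hq
    rcases hq with hq | ⟨r, hr, rfl⟩
    · exact ha.pos q hq
    · exact hb.pos r hr
  · intro x
    rw [esz, ehl]
    rcases hx : ofLex x with y | y
    · have hx' : x = toLex (Sum.inl y) := by rw [← hx]; rfl
      subst hx'
      obtain ⟨q, hq, h⟩ := ha.h1 y
      exact ⟨q, List.mem_append_left _ hq, by rw [ht_lex_inl ca cb, h]⟩
    · have hx' : x = toLex (Sum.inr y) := by rw [← hx]; rfl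
      subst hx'
      obtain ⟨q, hq, h⟩ := hb.h1 y
      refine ⟨shift (wsz (fl a)) q, List.mem_append_right _ (List.mem_map.2 ⟨q, hq, rfl⟩), ?_⟩
      rw [ht_lex_inr ca cb, h, val_shift (hb.pos q hq)]
  · intro q hq
    rw [esz]
    rw [ehl, List.mem_append, List.mem_map] at hq
    rcases hq with hq | ⟨r, hr, rfl⟩
    · obtain ⟨x, hx⟩ := ha.h2 q hq
      exact ⟨toLex (Sum.inl x), by rw [ht_lex_inl ca cb, hx]⟩
    · obtain ⟨x, hx⟩ := hb.h2 r hr
      exact ⟨toLex (Sum.inr x), by rw [ht_lex_inr ca cb, hx, val_shift (hb.pos r hr)]⟩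
  · intro p q h1 h2 h3
    exact ⟨ha.lo p q h1 h2 (balance_lex_left.trans_lt h3),
      hb.lo p q h1 h2 (balance_lex_right.trans_lt h3)⟩
  · rintro p q h1 h2 ⟨h3, h4⟩
    have h5 := ha.up p q h1 h2 h3
    have h6 := hb.up p q h1 h2 h4
    have h0 : (0 : ℝ) ≤ (p : ℝ) / q := by positivity
    apply balance_le_pairs hc
    intro x y
    rcases hx : ofLex x with u | u <;> rcases hy : ofLex y with v | v
    · have hx' : x = toLex (Sum.inl u) := by rw [← hx]; rfl
      have hy' : y = toLex (Sum.inl v) := by rw [← hy]; rfl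
      subst hx' hy'
      rw [pr_lex_inl ca cb, pr_lex_inl ca cb]
      exact (pairs_le ca u v).trans h5
    · have hx' : x = toLex (Sum.inl u) := by rw [← hx]; rfl
      have hy' : y = toLex (Sum.inr v) := by rw [← hy]; rfl
      subst hx' hy'
      refine (min_le_right _ _).trans ?_
      rw [pr_zero_of_lt (Sum.Lex.inl_lt_inr u v)]
      exact h0
    · have hx' : x = toLex (Sum.inr u) := by rw [← hx]; rfl
      have hy' : y = toLex (Sum.inl v) := by rw [← hy]; rfl
      subst hx' hy'
      refine (min_le_left _ _).trans ?_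
      rw [pr_zero_of_lt (Sum.Lex.inl_lt_inr v u)]
      exact h0
    · have hx' : x = toLex (Sum.inr u) := by rw [← hx]; rfl
      have hy' : y = toLex (Sum.inr v) := by rw [← hy]; rfl
      subst hx' hy'
      rw [pr_lex_inr ca cb, pr_lex_inr ca cb]
      exact (pairs_le cb u v).trans h6

theorem spec_par {a : Tm} {A : Type} [Fintype A] [PartialOrder A]
    (ha : Spec a A) : Spec (Tm.par a) (A ⊕ Fin 1) := by
  have nA := ha.ne
  have ne : Nonempty (A ⊕ Fin 1) := ⟨Sum.inr 0⟩
  have ca := ha.card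
  have hc : Fintype.card (A ⊕ Fin 1) = wsz (fl a) + 1 := by rw [Fintype.card_sum, ca]; simp
  have esz : wsz (fl (Tm.par a)) = wsz (fl a) + 1 := by
    simp only [fl, wsz, mk, add_zero]
  have ehl : whl 0 (fl (Tm.par a)) =
      (wsz (fl a) + 2, 2) :: (whl 0 (fl a)).map (scal (wsz (fl a))) := by
    simp only [fl, whl, mk, List.append_nil]
    rw [List.map_congr_left (g := id) (fun x _ => by rw [shift_zero]; rfl), List.map_id]
  refine ⟨ne, by rw [esz, hc], ?_, ?_, ?_, ?_, ?_, ?_⟩
  · have : wwd (fl (Tm.par a)) = wwd (fl a) + 1 := by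
      simp only [fl, wwd, mk, Nat.max_zero]
    rw [this]
    exact HasWidth.par ha.wid
  · intro q hq
    rw [ehl, List.mem_cons, List.mem_map] at hq
    rcases hq with rfl | ⟨r, hr, rfl⟩
    · norm_num
    · exact Nat.mul_pos (ha.pos r hr) (by omega)
  · intro x
    rw [esz, ehl]
    rcases x with x | z
    · obtain ⟨q, hq, h⟩ := ha.h1 x
      refine ⟨scal (wsz (fl a)) q, List.mem_cons_of_mem _ (List.mem_map.2 ⟨q, hq, rfl⟩), ?_⟩
      rw [ht_par_inl ca, h, val_scal]
    · refine ⟨_, List.mem_cons_self, ?_⟩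
      rw [ht_par_inr ca]
      unfold val
      push_cast
      ring
  · intro q hq
    rw [esz]
    rw [ehl, List.mem_cons, List.mem_map] at hq
    rcases hq with rfl | ⟨r, hr, rfl⟩
    · refine ⟨Sum.inr 0, ?_⟩
      rw [ht_par_inr ca]
      unfold val
      push_cast
      ring
    · obtain ⟨x, hx⟩ := ha.h2 r hr
      exact ⟨Sum.inl x, by rw [ht_par_inl ca, hx, val_scal]⟩
  · intro p q h1 h2 h3
    refine ⟨ha.lo p q h1 h2 (balance_sum_left.trans_lt h3), ?_⟩
    intro x hx hmid
    obtain ⟨y, hy⟩ := ha.h2 x hx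
    rw [mid_iff h1 h2 (ha.pos x hx), ← hy] at hmid
    have h4 := pairs_le hc (Sum.inl y) (Sum.inr 0)
    rw [pr_z ca, pr_z' ca] at h4
    have h5 : (p : ℝ) / q ≤ min (1 - ht A (wsz (fl a)) y / ((wsz (fl a) : ℕ) + 1))
        (ht A (wsz (fl a)) y / ((wsz (fl a) : ℕ) + 1)) := le_min hmid.2 hmid.1
    linarith [h5.trans h4]
  · rintro p q h1 h2 ⟨h3, h4⟩
    have h5 := ha.up p q h1 h2 h3
    have h0 : (0 : ℝ) ≤ (p : ℝ) / q := by positivity
    have key : ∀ (x : A) (z : Fin 1), min (1 - ht A (wsz (fl a)) x / ((wsz (fl a) : ℕ) + 1))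
        (ht A (wsz (fl a)) x / ((wsz (fl a) : ℕ) + 1)) ≤ (p : ℝ) / q := by
      intro x z
      by_contra hcon
      rw [not_le, lt_min_iff] at hcon
      obtain ⟨r, hr, hx⟩ := ha.h1 x
      apply h4 r hr
      rw [midS_iff h1 h2 (ha.pos r hr), ← hx]
      exact ⟨hcon.2, hcon.1⟩
    apply balance_le_pairs hc
    intro x y
    rcases x with x | x <;> rcases y with y | y
    · rw [pr_disj_inl ca (by simp), pr_disj_inl ca (by simp)]
      exact (pairs_le ca x y).trans h5
    · rw [pr_z ca, pr_z' ca]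
      exact key x y
    · rw [pr_z ca, pr_z' ca, min_comm]
      exact key y x
    · rw [Subsingleton.elim y x, pr_self]
      simpa using h0

theorem Rep.spec {t : Tm} {P : Type} [PartialOrder P] (h : Rep t P) :
    ∀ [Fintype P], Spec t P := by
  induction h with
  | one P e =>
    intro _
    obtain ⟨e⟩ := e
    exact spec_one.iso e.symm
  | ser a b A B P _ _ e ihA ihB =>
    intro hP
    obtain ⟨e⟩ := e
    have fA : Finite A := Finite.of_injective (fun x : A => e.symm (toLex (Sum.inl x)))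
      (fun a b h => Sum.inl_injective (toLex.injective (e.symm.injective h)))
    have fB : Finite B := Finite.of_injective (fun x : B => e.symm (toLex (Sum.inr x)))
      (fun a b h => Sum.inr_injective (toLex.injective (e.symm.injective h)))
    have := Fintype.ofFinite A
    have := Fintype.ofFinite B
    exact (spec_ser (A := A) (B := B) ihA ihB).iso e.symm
  | par a A P _ e ihA =>
    intro hP
    obtain ⟨e⟩ := e
    have fA : Finite A := Finite.of_injective (fun x : A => e.symm (Sum.inl x))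
      (fun a b h => Sum.inl_injective (e.symm.injective h))
    have := Fintype.ofFinite A
    exact (spec_par (A := A) ihA).iso e.symm

end Pool.Agent.Q289.SPI
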