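import Mathlib
import Pool.Agent.Q289.SPI.Rep

set_option autoImplicit false

/-!
# Finite certificates for the blocks with balance constant less than `p / q`
-/

open Finset

namespace Pool.Agent.Q289.SPI

lemma nbeq (a b : ℕ) : Nat.beq a b = true ↔ a = b :=
  ⟨Nat.eq_of_beq_eq_true, fun h => by rw [h]; exact Nat.beq_refl b⟩

/-- equality of fractions as pairs -/
def eqP (a b : ℕ × ℕ) : Bool := Nat.beq a.1 b.1 && Nat.beq a.2 b.2

/-- equality of lists -/
def eqL : List (ℕ × ℕ) → List (ℕ × ℕ) → Bool
  | [], [] => true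
  | a :: l, b :: m => eqP a b && eqL l m
  | _, _ => false

/-- equality of blocks -/
def eqB (a b : Bk) : Bool := Nat.beq a.s b.s && (Nat.beq a.w b.w && eqL a.h b.h)

/-- membership -/
def memB (b : Bk) : List Bk → Bool
  | [] => false
  | c :: l => eqB b c || memB b l

lemma eqL_sound : ∀ l m : List (ℕ × ℕ), eqL l m = true → l = m
  | [], [], _ => rfl
  | a :: l, b :: m, h => by
    simp only [eqL, eqP, Bool.and_eq_true, nbeq] at h
    rw [eqL_sound l m h.2, Prod.ext h.1.1 h.1.2]
  | [], b :: m, h => by simp [eqL] at h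
  | a :: l, [], h => by simp [eqL] at h

lemma eqB_sound {a b : Bk} (h : eqB a b = true) : a = b := by
  obtain ⟨s, w, l⟩ := a
  obtain ⟨s', w', l'⟩ := b
  simp only [eqB, Bool.and_eq_true, nbeq] at h
  obtain ⟨rfl, rfl, h3⟩ := h
  rw [eqL_sound _ _ h3]

lemma memB_sound {b : Bk} {B : List Bk} (h : memB b B = true) : b ∈ B := by
  induction B with
  | nil => simp [memB] at h
  | cons c l ih =>
    simp only [memB, Bool.or_eq_true] at h
    rcases h with h | h
    · rw [eqB_sound h]; exact List.mem_cons_self
    · exact List.mem_cons_of_mem _ (ih h)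

/-- conjunction over a list -/
def allL {α : Type} (f : α → Bool) (l : List α) : Bool :=
  List.rec (motive := fun _ => Bool) true (fun a _ ih => cond (f a) ih false) l

lemma allL_sound {α : Type} {f : α → Bool} {l : List α} (h : allL f l = true) :
    ∀ a ∈ l, f a = true := by
  induction l with
  | nil => intro a ha; simp at ha
  | cons c l ih =>
    have e : allL f (c :: l) = cond (f c) (allL f l) false := rfl
    rw [e] at h
    have hc : f c = true := by
      by_contra hc
      rw [Bool.not_eq_true] at hc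
      rw [hc] at h
      exact absurd h (by simp)
    rw [hc, cond_true] at h
    intro a ha
    rw [List.mem_cons] at ha
    rcases ha with rfl | ha
    · exact hc
    · exact ih h a ha

/-- conjunction over the numbers less than `n` -/
def allN (f : ℕ → Bool) (n : ℕ) : Bool :=
  Nat.rec (motive := fun _ => Bool) true (fun k ih => cond (f k) ih false) n

lemma allN_sound {f : ℕ → Bool} {n : ℕ} (h : allN f n = true) : ∀ k < n, f k = true := by
  induction n with
  | zero => intro k hk; omega
  | succ n ih =>
    have e : allN f (n + 1) = cond (f n) (allN f n) false := rfl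
    rw [e] at h
    have hc : f n = true := by
      by_contra hc
      rw [Bool.not_eq_true] at hc
      rw [hc] at h
      exact absurd h (by simp)
    rw [hc, cond_true] at h
    intro k hk
    rcases Nat.lt_succ_iff_lt_or_eq.1 hk with h1 | h1
    · exact ih h k h1
    · rw [h1]; exact hc

/-- some height of the list, shifted by `k`, is in the middle -/
def anyMid (L U q k : ℕ) (l : List (ℕ × ℕ)) : Bool :=
  List.rec (motive := fun _ => Bool) false (fun x _ ih =>
    cond (Nat.ble (Nat.mul L x.2) (Nat.mul q (Nat.add (Nat.mul k x.2) x.1)))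
      (cond (Nat.ble (Nat.mul q (Nat.add (Nat.mul k x.2) x.1)) (Nat.mul U x.2)) true ih) ih) l

lemma anyMid_sound {p q n k : ℕ} {l : List (ℕ × ℕ)}
    (h : anyMid (p * (n + 1)) ((q - p) * (n + 1)) q k l = true) :
    ∃ x ∈ l.map (shift k), Mid p q n x := by
  induction l with
  | nil => exact absurd h (by simp [anyMid])
  | cons x l ih =>
    have e : anyMid (p * (n + 1)) ((q - p) * (n + 1)) q k (x :: l) =
        cond (Nat.ble (p * (n + 1) * x.2) (q * (k * x.2 + x.1)))
        (cond (Nat.ble (q * (k * x.2 + x.1)) ((q - p) * (n + 1) * x.2)) true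
          (anyMid (p * (n + 1)) ((q - p) * (n + 1)) q k l))
        (anyMid (p * (n + 1)) ((q - p) * (n + 1)) q k l) := rfl
    rw [e] at h
    have hrest : anyMid (p * (n + 1)) ((q - p) * (n + 1)) q k l = true →
        ∃ y ∈ (x :: l).map (shift k), Mid p q n y := by
      intro h'
      obtain ⟨y, hy, hm⟩ := ih h'
      exact ⟨y, by rw [List.map_cons]; exact List.mem_cons_of_mem _ hy, hm⟩
    cases h1 : Nat.ble (p * (n + 1) * x.2) (q * (k * x.2 + x.1)) with
    | false => rw [h1, cond_false] at h; exact hrest h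
    | true =>
      rw [h1, cond_true] at h
      cases h2 : Nat.ble (q * (k * x.2 + x.1)) ((q - p) * (n + 1) * x.2) with
      | false => rw [h2, cond_false] at h; exact hrest h
      | true =>
        rw [Nat.ble_eq] at h1 h2
        exact ⟨shift k x, by simp, h1, h2⟩

/-- the place `[k, k + s]` is near the middle -/
def near (L U q k s : ℕ) : Bool := cond (Nat.ble L (Nat.mul q (Nat.add k s)))
  (Nat.ble (Nat.mul q k) U) false

/-- the bit `k` of `m` -/
def tb (m k : ℕ) : Bool := Nat.beq (Nat.land (Nat.shiftRight m k) 1) 1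

/-- a test for all groups of size at most `r` in a sorted list -/
def allUpTo (r : ℕ) (f : ℕ → List Bk → Bool) (G : List (ℕ × List Bk)) : Bool :=
  List.rec (motive := fun _ => Bool) true
    (fun g _ ih => cond (Nat.ble g.1 r) (cond (f g.1 g.2) ih false) true) G

lemma allUpTo_sound {r : ℕ} {f : ℕ → List Bk → Bool} {G : List (ℕ × List Bk)}
    (hs : G.Pairwise (fun a b => a.1 ≤ b.1)) (h : allUpTo r f G = true) :
    ∀ g ∈ G, g.1 ≤ r → f g.1 g.2 = true := by
  induction G with
  | nil => intro g hg; simp at hg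
  | cons c l ih =>
    intro g hg hgr
    rw [List.pairwise_cons] at hs
    have e : allUpTo r f (c :: l) = cond (Nat.ble c.1 r) (cond (f c.1 c.2) (allUpTo r f l) false)
      true := rfl
    rw [e] at h
    rw [List.mem_cons] at hg
    by_cases hc : c.1 ≤ r
    · have hc' : Nat.ble c.1 r = true := by rw [Nat.ble_eq]; exact hc
      rw [hc', cond_true] at h
      have hf : f c.1 c.2 = true := by
        by_contra hf
        rw [Bool.not_eq_true] at hf
        rw [hf] at h
        exact absurd h (by simp)
      rw [hf, cond_true] at h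
      rcases hg with rfl | hg
      · exact hf
      · exact ih hs.2 h g hg hgr
    · exfalso
      rcases hg with rfl | hg
      · exact hc hgr
      · exact hc ((hs.1 g hg).trans hgr)

/-- the blocks of size `s` -/
def look (s : ℕ) (G : List (ℕ × List Bk)) : List Bk :=
  List.rec (motive := fun _ => List Bk) [] (fun g _ ih => cond (Nat.beq g.1 s) g.2 ih) G

/-- membership in a list of groups -/
def InG (G : List (ℕ × List Bk)) (b : Bk) : Prop := ∃ g ∈ G, g.1 = b.s ∧ b ∈ g.2

lemma look_sound {s : ℕ} {G : List (ℕ × List Bk)} {b : Bk} (h : b ∈ look s G) :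
    ∃ g ∈ G, g.1 = s ∧ b ∈ g.2 := by
  induction G with
  | nil => exact absurd h (by simp [look])
  | cons c l ih =>
    have e : look s (c :: l) = cond (Nat.beq c.1 s) c.2 (look s l) := rfl
    rw [e] at h
    cases hc : Nat.beq c.1 s with
    | false =>
      rw [hc, cond_false] at h
      obtain ⟨g, hg, h1, h2⟩ := ih h
      exact ⟨g, List.mem_cons_of_mem _ hg, h1, h2⟩
    | true =>
      rw [hc, cond_true] at h
      exact ⟨c, List.mem_cons_self, (nbeq _ _).1 hc, h⟩

/-- all blocks of a group at `k` have a height in the middle -/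
def hits (L U q k s : ℕ) (l : List Bk) : Bool :=
  cond (near L U q k s) (allL (fun b => anyMid L U q k b.h) l) false

/-- no way from a dead place `k` to a living place -/
def deadOK (G : List (ℕ × List Bk)) (L U q m n k : ℕ) : Bool :=
  cond (tb m k) true (allUpTo (Nat.sub n k) (fun s l =>
    cond (tb m (Nat.add k s)) (hits L U q k s l) true) G)

/-- enumeration of all words of size `r` starting at `k`, extending the reversed word `acc` -/
def go (G : List (ℕ × List Bk)) (T : List Bk) (L U q m : ℕ) (f : ℕ) : ℕ → ℕ → List Bk → Bool :=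
  Nat.rec (motive := fun _ => ℕ → ℕ → List Bk → Bool)
    (fun _ r acc => cond (Nat.beq r 0) (memB (mk acc.reverse) T) true)
    (fun _ ih k r acc => cond (Nat.beq r 0) (memB (mk acc.reverse) T)
      (allUpTo r (fun s l => cond (tb m (Nat.add k s))
        (cond (near L U q k s)
          (allL (fun b => cond (anyMid L U q k b.h) true
            (ih (Nat.add k s) (Nat.sub r s) (b :: acc))) l)
          (allL (fun b => ih (Nat.add k s) (Nat.sub r s) (b :: acc)) l)) true) G)) f

/-- the enumeration for words of size `n`, with the places of `m` alive -/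
def enum (p q n m : ℕ) (G : List (ℕ × List Bk)) : Bool :=
  cond (tb m n) (cond (allN (deadOK G (p * (n + 1)) ((q - p) * (n + 1)) q m n) n)
    (cond (tb m 0) (go G (look (n + 1) G) (p * (n + 1)) ((q - p) * (n + 1)) q m n 0 n []) true)
    false) false

lemma cond_and {a b : Bool} (h : cond a b false = true) : a = true ∧ b = true := by
  cases a with
  | false => exact absurd h (by simp)
  | true => exact ⟨rfl, h⟩

section

variable {G : List (ℕ × List Bk)} {p q n m : ℕ}

lemma live_sound (hs : G.Pairwise (fun a b => a.1 ≤ b.1)) (h1 : ∀ b, InG G b → 1 ≤ b.s)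
    (hn : tb m n = true)
    (hd : ∀ k < n, deadOK G (p * (n + 1)) ((q - p) * (n + 1)) q m n k = true) :
    ∀ (w : List Bk) (k : ℕ), (∀ b ∈ w, InG G b) → k + wsz w = n →
      (∀ x ∈ whl k w, ¬ Mid p q n x) → tb m k = true := by
  intro w
  induction w with
  | nil =>
    intro k _ hk _
    have : k = n := by simpa [wsz] using hk
    rw [this]
    exact hn
  | cons b w ih =>
    intro k hw hk hm
    have hb := hw b List.mem_cons_self
    have hb1 := h1 b hb
    obtain ⟨g, hg, hgs, hgb⟩ := hb
    simp only [wsz] at hk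
    have h2 := ih (k + b.s) (fun c hc => hw c (List.mem_cons_of_mem _ hc)) (by omega)
      (fun x hx => hm x (by simp only [whl]; exact List.mem_append_right _ hx))
    by_contra hdead
    rw [Bool.not_eq_true] at hdead
    have h3 := hd k (by omega)
    rw [deadOK, hdead, cond_false] at h3
    have h4 := allUpTo_sound hs h3 g hg (by
      show g.1 ≤ n - k
      omega)
    have h5 : tb m (Nat.add k g.1) = true := by rw [hgs]; exact h2
    rw [h5, cond_true] at h4
    obtain ⟨-, h6⟩ := cond_and h4
    obtain ⟨x, hx, hmx⟩ := anyMid_sound (allL_sound h6 b hgb)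
    exact hm x (by simp only [whl]; exact List.mem_append_left _ hx) hmx

lemma go_sound (hs : G.Pairwise (fun a b => a.1 ≤ b.1)) (h1 : ∀ b, InG G b → 1 ≤ b.s)
    (hn : tb m n = true)
    (hd : ∀ k < n, deadOK G (p * (n + 1)) ((q - p) * (n + 1)) q m n k = true) {T : List Bk} :
    ∀ (f k r : ℕ) (acc : List Bk),
    go G T (p * (n + 1)) ((q - p) * (n + 1)) q m f k r acc = true → r ≤ f → k + r = n →
    ∀ w : List Bk, (∀ b ∈ w, InG G b) → wsz w = r → (∀ x ∈ whl k w, ¬ Mid p q n x) →
    mk (acc.reverse ++ w) ∈ T := by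
  intro f
  induction f with
  | zero =>
    intro k r acc h hr _ w hw hws hmid
    have hr0 : r = 0 := by omega
    subst hr0
    have h' : memB (mk acc.reverse) T = true := h
    cases w with
    | nil => rw [List.append_nil]; exact memB_sound h'
    | cons b w =>
      exfalso
      have := h1 b (hw b List.mem_cons_self)
      simp only [wsz] at hws
      omega
  | succ f ih =>
    intro k r acc h hr hkr w hw hws hmid
    cases w with
    | nil =>
      have hr0 : r = 0 := by rw [← hws]; rfl
      subst hr0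
      have h' : memB (mk acc.reverse) T = true := h
      rw [List.append_nil]
      exact memB_sound h'
    | cons b w =>
      have hb := hw b List.mem_cons_self
      have hb1 := h1 b hb
      obtain ⟨g, hg, hgs, hgb⟩ := hb
      simp only [wsz] at hws
      have hr0 : Nat.beq r 0 = false := by
        rw [← Bool.not_eq_true, nbeq]
        omega
      have e : go G T (p * (n + 1)) ((q - p) * (n + 1)) q m (f + 1) k r acc =
          cond (Nat.beq r 0) (memB (mk acc.reverse) T)
          (allUpTo r (fun s l => cond (tb m (Nat.add k s))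
            (cond (near (p * (n + 1)) ((q - p) * (n + 1)) q k s)
              (allL (fun b => cond (anyMid (p * (n + 1)) ((q - p) * (n + 1)) q k b.h) true
                (go G T (p * (n + 1)) ((q - p) * (n + 1)) q m f (Nat.add k s) (Nat.sub r s)
                  (b :: acc))) l)
              (allL (fun b => go G T (p * (n + 1)) ((q - p) * (n + 1)) q m f (Nat.add k s)
                (Nat.sub r s) (b :: acc)) l)) true) G) := rfl
      rw [e, hr0, cond_false] at h
      have h2 := allUpTo_sound hs h g hg (by omega)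
      have hws' : ∀ c ∈ w, InG G c := fun c hc => hw c (List.mem_cons_of_mem _ hc)
      have hm' : ∀ x ∈ whl (k + b.s) w, ¬ Mid p q n x :=
        fun x hx => hmid x (by simp only [whl]; exact List.mem_append_right _ hx)
      have h3 : tb m (Nat.add k g.1) = true := by
        rw [hgs]
        exact live_sound hs h1 hn hd w (k + b.s) hws' (by omega) hm'
      rw [h3, cond_true] at h2
      have h4 : ¬ (anyMid (p * (n + 1)) ((q - p) * (n + 1)) q k b.h = true) := by
        intro h4
        obtain ⟨x, hx, hm⟩ := anyMid_sound h4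
        exact hmid x (by simp only [whl]; exact List.mem_append_left _ hx) hm
      rw [Bool.not_eq_true] at h4
      have h5 : go G T (p * (n + 1)) ((q - p) * (n + 1)) q m f (Nat.add k g.1) (Nat.sub r g.1)
          (b :: acc) = true := by
        cases h6 : near (p * (n + 1)) ((q - p) * (n + 1)) q k g.1 with
        | false =>
          rw [h6, cond_false] at h2
          exact allL_sound h2 b hgb
        | true =>
          rw [h6, cond_true] at h2
          have h7 := allL_sound h2 b hgb
          rw [h4, cond_false] at h7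
          exact h7
      rw [hgs] at h5
      have h8 := ih (k + b.s) (r - b.s) (b :: acc) h5 (by omega) (by omega) w hws' (by omega) hm'
      rw [List.reverse_cons, List.append_assoc] at h8
      exact h8

lemma enum_sound (hs : G.Pairwise (fun a b => a.1 ≤ b.1)) (h1 : ∀ b, InG G b → 1 ≤ b.s)
    (h : enum p q n m G = true) (w : List Bk) (hw : ∀ b ∈ w, InG G b) (hws : wsz w = n)
    (hm : ∀ x ∈ whl 0 w, ¬ Mid p q n x) : InG G (mk w) := by
  obtain ⟨hn, h2⟩ := cond_and h
  obtain ⟨h3, h4⟩ := cond_and h2
  have hd := allN_sound h3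
  have h5 := live_sound hs h1 hn hd w 0 hw (by omega) hm
  rw [h5, cond_true] at h4
  have h6 := go_sound hs h1 hn hd n 0 n [] h4 le_rfl (by omega) w hw hws hm
  obtain ⟨g, hg, hgs, hgb⟩ := look_sound h6
  refine ⟨g, hg, ?_, by simpa using hgb⟩
  rw [hgs]
  simp [mk, hws]

end

/-- the gap condition: lowest height at most `1 + u/v`, and from each height `x` one comes to
the top `s - u/v` or to a height in `(x, x + 1 + 2u/v]` -/
def gap (u v : ℕ) (b : Bk) : Bool :=
  Nat.ble 1 b.s && (b.h.any (fun x => Nat.ble (v * x.1) ((v + u) * x.2)) &&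
  b.h.all (fun x => Nat.ble 1 x.2 && (Nat.ble x.2 x.1 && (Nat.ble x.1 (b.s * x.2) &&
    (Nat.ble (v * (b.s * x.2)) (v * x.1 + u * x.2) ||
      b.h.any (fun y => Nat.ble (x.1 * y.2 + 1) (y.1 * x.2) &&
        Nat.ble (v * (y.1 * x.2)) (v * (x.1 * y.2) + (v + 2 * u) * (x.2 * y.2))))))))

/-- the gap condition in real numbers -/
structure Good (σ : ℝ) (s : ℕ) (H : List (ℕ × ℕ)) : Prop where
  pos : ∀ x ∈ H, 0 < x.2
  bot : ∃ x ∈ H, val x ≤ 1 + σ
  rng : ∀ x ∈ H, 1 ≤ val x ∧ val x ≤ s
  nxt : ∀ x ∈ H, s - σ ≤ val x ∨ ∃ y ∈ H, val x < val y ∧ val y ≤ val x + 1 + 2 * σ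

lemma gap_sound {u v : ℕ} (hv : 0 < v) {b : Bk} (h : gap u v b = true) :
    1 ≤ b.s ∧ Good ((u : ℝ) / v) b.s b.h := by
  have hvR : (0 : ℝ) < v := by exact_mod_cast hv
  simp only [gap, Bool.and_eq_true, Nat.ble_eq, List.any_eq_true, List.all_eq_true,
    Bool.or_eq_true] at h
  obtain ⟨h0, ⟨x0, hx0, h1⟩, h2⟩ := h
  refine ⟨h0, ?_, ?_, ?_, ?_⟩
  · intro x hx
    exact (h2 x hx).1
  · refine ⟨x0, hx0, ?_⟩
    have hp : (0 : ℝ) < x0.2 := by exact_mod_cast (h2 x0 hx0).1
    have h1' : (v : ℝ) * x0.1 ≤ (v + u) * x0.2 := by exact_mod_cast h1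
    unfold val
    rw [div_le_iff₀ hp]
    have : (1 + (u : ℝ) / v) * x0.2 = (v + u) * x0.2 / v := by field_simp
    rw [this, le_div_iff₀ hvR]
    linarith
  · intro x hx
    obtain ⟨h3, h4, h5, -⟩ := h2 x hx
    have hp : (0 : ℝ) < x.2 := by exact_mod_cast h3
    have h4' : (x.2 : ℝ) ≤ x.1 := by exact_mod_cast h4
    have h5' : (x.1 : ℝ) ≤ b.s * x.2 := by exact_mod_cast h5
    unfold val
    exact ⟨by rw [le_div_iff₀ hp]; linarith, by rw [div_le_iff₀ hp]; exact h5'⟩
  · intro x hx
    obtain ⟨h3, -, -, h6⟩ := h2 x hx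
    have hp : (0 : ℝ) < x.2 := by exact_mod_cast h3
    rcases h6 with h6 | ⟨y, hy, h7, h8⟩
    · left
      have h6' : (v : ℝ) * (b.s * x.2) ≤ v * x.1 + u * x.2 := by exact_mod_cast h6
      unfold val
      rw [le_div_iff₀ hp]
      have : ((b.s : ℝ) - u / v) * x.2 = (v * (b.s * x.2) - u * x.2) / v := by field_simp
      rw [this, div_le_iff₀ hvR]
      linarith
    · right
      have hyp : (0 : ℝ) < y.2 := by exact_mod_cast (h2 y hy).1
      have h7' : (x.1 : ℝ) * y.2 + 1 ≤ y.1 * x.2 := by exact_mod_cast h7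
      have h8' : (v : ℝ) * (y.1 * x.2) ≤ v * (x.1 * y.2) + (v + 2 * u) * (x.2 * y.2) := by
        exact_mod_cast h8
      refine ⟨y, hy, ?_, ?_⟩
      · unfold val
        rw [div_lt_div_iff₀ hp hyp]
        linarith
      · unfold val
        have e : (x.1 : ℝ) / x.2 + 1 + 2 * (u / v) =
            (v * (x.1 * y.2) + (v + 2 * u) * (x.2 * y.2)) / (v * (x.2 * y.2)) := by
          field_simp
          ring
        rw [e, div_le_div_iff₀ hyp (by positivity)]
        calc (y.1 : ℝ) * (v * (x.2 * y.2)) = (v * (y.1 * x.2)) * y.2 := by ring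
          _ ≤ (v * (x.1 * y.2) + (v + 2 * u) * (x.2 * y.2)) * y.2 :=
            mul_le_mul_of_nonneg_right h8' hyp.le

lemma Good.single {σ : ℝ} {b : Bk} (h : Good σ b.s b.h) :
    Good σ (wsz [b]) (whl 0 [b]) := by
  have e1 : wsz [b] = b.s := by simp [wsz]
  have e2 : whl 0 [b] = b.h := by
    simp only [whl, List.append_nil]
    rw [List.map_congr_left (g := id) (fun x _ => by rw [shift_zero]; rfl), List.map_id]
  rw [e1, e2]
  exact h

lemma Good.word {σ : ℝ} : ∀ w : List Bk, w ≠ [] → (∀ b ∈ w, Good σ b.s b.h) →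
    Good σ (wsz w) (whl 0 w)
  | [], h, _ => absurd rfl h
  | [b], _, h => (h b List.mem_cons_self).single
  | b :: c :: w, _, h => by
    have hb := (h b List.mem_cons_self).single
    have hw := Good.word (c :: w) (by simp) (fun d hd => h d (List.mem_cons_of_mem _ hd))
    have e1 : wsz (b :: c :: w) = b.s + wsz (c :: w) := rfl
    have e2 : whl 0 (b :: c :: w) = whl 0 [b] ++ (whl 0 (c :: w)).map (shift b.s) := by
      have := whl_append [b] (c :: w) 0
      rw [List.singleton_append] at this
      rw [this, whl_zero (c :: w) (0 + wsz [b])]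
      simp [wsz]
    have e3 : wsz [b] = b.s := by simp [wsz]
    rw [e3] at hb
    rw [e1, e2]
    have hv : ∀ x ∈ whl 0 (c :: w), val (shift b.s x) = b.s + val x :=
      fun x hx => val_shift (hw.pos x hx) b.s
    refine ⟨?_, ?_, ?_, ?_⟩
    · intro x hx
      rw [List.mem_append, List.mem_map] at hx
      rcases hx with hx | ⟨y, hy, rfl⟩
      · exact hb.pos x hx
      · exact hw.pos y hy
    · obtain ⟨x, hx, h1⟩ := hb.bot
      exact ⟨x, List.mem_append_left _ hx, h1⟩
    · intro x hx
      rw [List.mem_append, List.mem_map] at hx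
      push_cast
      rcases hx with hx | ⟨y, hy, rfl⟩
      · have h1 := hb.rng x hx
        have h2 : (0 : ℝ) ≤ wsz (c :: w) := by positivity
        exact ⟨h1.1, by linarith [h1.2]⟩
      · have h1 := hw.rng y hy
        rw [hv y hy]
        have h2 : (0 : ℝ) ≤ b.s := by positivity
        exact ⟨by linarith [h1.1], by linarith [h1.2]⟩
    · intro x hx
      rw [List.mem_append, List.mem_map] at hx
      push_cast
      rcases hx with hx | ⟨y, hy, rfl⟩
      · right
        rcases hb.nxt x hx with h1 | ⟨z, hz, h1, h2⟩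
        · obtain ⟨z, hz, h3⟩ := hw.bot
          refine ⟨shift b.s z, List.mem_append_right _ (List.mem_map.2 ⟨z, hz, rfl⟩), ?_, ?_⟩
          · rw [hv z hz]
            linarith [(hb.rng x hx).2, (hw.rng z hz).1]
          · rw [hv z hz]
            linarith
        · exact ⟨z, List.mem_append_left _ hz, h1, h2⟩
      · rw [hv y hy]
        rcases hw.nxt y hy with h1 | ⟨z, hz, h1, h2⟩
        · left; linarith
        · right
          refine ⟨shift b.s z, List.mem_append_right _ (List.mem_map.2 ⟨z, hz, rfl⟩), ?_, ?_⟩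
          · rw [hv z hz]; linarith
          · rw [hv z hz]; linarith

/-- large words have a height in the middle -/
lemma Good.mid {σ : ℝ} (_hσ : 0 ≤ σ) {n : ℕ} {H : List (ℕ × ℕ)} (h : Good σ n H) {p q : ℕ}
    (hq : 0 < q) (hpq : p ≤ q) (hn : 1 + 2 * σ ≤ (1 - 2 * ((p : ℝ) / q)) * (n + 1)) :
    ∃ x ∈ H, Mid p q n x := by
  classical
  set c : ℝ := (p : ℝ) / q with hc
  have hc0 : 0 ≤ c := by positivity
  have hn1 : (0 : ℝ) < (n : ℝ) + 1 := by positivity
  have hmid : ∀ x ∈ H, c * (n + 1) ≤ val x → val x ≤ (1 - c) * (n + 1) → Mid p q n x := by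
    intro x hx h1 h2
    rw [mid_iff hq hpq (h.pos x hx)]
    constructor
    · rw [le_div_iff₀ hn1]; exact h1
    · have : val x / (n + 1) ≤ 1 - c := by rw [div_le_iff₀ hn1]; exact h2
      linarith
  have hhi : 1 + 2 * σ ≤ (1 - c) * (n + 1) := by nlinarith
  by_cases hT : ∃ x ∈ H, val x < c * (n + 1)
  · obtain ⟨x0, hx0, h0⟩ := hT
    obtain ⟨x, hx, hmax⟩ := (H.toFinset.filter (fun x => val x < c * (n + 1))).exists_max_image
      val ⟨x0, by rw [mem_filter, List.mem_toFinset]; exact ⟨hx0, h0⟩⟩
    rw [mem_filter, List.mem_toFinset] at hx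
    rcases h.nxt x hx.1 with h1 | ⟨y, hy, h1, h2⟩
    · exfalso
      nlinarith [hx.2]
    · refine ⟨y, hy, hmid y hy ?_ ?_⟩
      · by_contra hcon
        have := hmax y (by rw [mem_filter, List.mem_toFinset]; exact ⟨hy, not_le.1 hcon⟩)
        linarith
      · have := hx.2
        nlinarith
  · push Not at hT
    obtain ⟨x, hx, h1⟩ := h.bot
    exact ⟨x, hx, hmid x hx (hT x hx) (by linarith)⟩

/-- sorted by size -/
def srt : List (ℕ × List Bk) → Bool
  | [] => true
  | [_] => true
  | a :: b :: l => Nat.ble a.1 b.1 && srt (b :: l)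

lemma srt_sound : ∀ G : List (ℕ × List Bk), srt G = true → G.Pairwise (fun a b => a.1 ≤ b.1)
  | [], _ => List.Pairwise.nil
  | [a], _ => List.pairwise_singleton _ _
  | a :: b :: l, h => by
    simp only [srt, Bool.and_eq_true, Nat.ble_eq] at h
    have ih := srt_sound (b :: l) h.2
    rw [List.pairwise_cons]
    refine ⟨?_, ih⟩
    intro c hc
    rw [List.mem_cons] at hc
    rcases hc with rfl | hc
    · exact h.1
    · exact h.1.trans ((List.pairwise_cons.1 ih).1 c hc)

/-- the certificate without the enumeration -/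
def cert0 (p q u v N W : ℕ) (G : List (ℕ × List Bk)) : Bool :=
  srt G && (memB b1 (look 1 G) &&
    (allL (fun g => allL (fun b => gap u v b && (Nat.ble b.w W && Nat.beq g.1 b.s)) g.2) G &&
    (Nat.ble 1 v && (Nat.ble (2 * p) q && (Nat.ble 1 q &&
      Nat.ble ((v + 2 * u) * q) ((q - 2 * p) * (N + 1) * v))))))

/-- the enumerations for the sizes `n + 1, n + 2, …` -/
def enumAll (p q : ℕ) (G : List (ℕ × List Bk)) : List ℕ → ℕ → Bool :=
  List.rec (motive := fun _ => ℕ → Bool) (fun _ => true)
    (fun m _ ih n => cond (enum p q (n + 1) m G) (ih (n + 1)) false)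

lemma enumAll_sound {p q : ℕ} {G : List (ℕ × List Bk)} : ∀ (M : List ℕ) (n : ℕ),
    enumAll p q G M n = true → ∀ k, n < k → k < n + M.length + 1 →
      ∃ m, enum p q k m G = true := by
  intro M
  induction M with
  | nil => intro n _ k h1 h2; simp at h2; omega
  | cons m M ih =>
    intro n h k h1 h2
    have e : enumAll p q G (m :: M) n = cond (enum p q (n + 1) m G) (enumAll p q G M (n + 1))
      false := rfl
    rw [e] at h
    obtain ⟨h3, h4⟩ := cond_and h
    by_cases hk : k = n + 1
    · rw [hk]; exact ⟨m, h3⟩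
    · rw [List.length_cons] at h2
      exact ih (n + 1) h4 k (by omega) (by omega)

lemma wsz_pos (t : Tm) : 1 ≤ wsz (fl t) := by
  induction t with
  | one => simp [fl, wsz, b1]
  | ser a b ha _ => simp only [fl, wsz_append]; omega
  | par a _ => simp only [fl, wsz, mk]; omega

lemma fl_ne (t : Tm) : fl t ≠ [] := by
  induction t with
  | one => simp [fl]
  | ser a b ha _ => simp [fl, ha]
  | par a _ => simp [fl]

lemma cert0_blocks {p q u v N W : ℕ} {G : List (ℕ × List Bk)} (h0 : cert0 p q u v N W G = true) :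
    ∀ b, InG G b → gap u v b = true ∧ b.w ≤ W := by
  simp only [cert0, Bool.and_eq_true] at h0
  obtain ⟨-, -, hall, -⟩ := h0
  rintro b ⟨g, hg, -, hb⟩
  have h1 := allL_sound (allL_sound hall g hg) b hb
  simp only [Bool.and_eq_true, Nat.ble_eq] at h1
  exact ⟨h1.1, h1.2.1⟩

theorem blocks_mem {p q u v W : ℕ} {G : List (ℕ × List Bk)} {M : List ℕ}
    (h0 : cert0 p q u v (M.length + 1) W G = true)
    (h1 : enumAll p q G M 0 = true) : ∀ t, GLt p q t → ∀ b ∈ fl t, InG G b := by
  have hblk := cert0_blocks h0
  have h0' := h0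
  simp only [cert0, Bool.and_eq_true, Nat.ble_eq] at h0
  obtain ⟨hs, hb1, hall, hv, hpq, hq, hN⟩ := h0
  have hs' := srt_sound G hs
  have hv0 : 0 < v := hv
  have hgood : ∀ b, InG G b → 1 ≤ b.s ∧ Good ((u : ℝ) / v) b.s b.h :=
    fun b hb => gap_sound hv0 (hblk b hb).1
  intro t
  induction t with
  | one =>
    intro _ b hb
    simp only [fl, List.mem_singleton] at hb
    rw [hb]
    obtain ⟨g, hg, h2, h3⟩ := look_sound (memB_sound hb1)
    exact ⟨g, hg, h2, h3⟩
  | ser a b iha ihb =>
    rintro ⟨ha, hb⟩ c hc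
    simp only [fl, List.mem_append] at hc
    rcases hc with hc | hc
    · exact iha ha c hc
    · exact ihb hb c hc
  | par a iha =>
    rintro ⟨ha, hm⟩ c hc
    simp only [fl, List.mem_singleton] at hc
    subst hc
    have hw := iha ha
    by_cases hn : wsz (fl a) < M.length + 1
    · obtain ⟨m, h2⟩ := enumAll_sound M 0 h1 (wsz (fl a)) (wsz_pos a) (by omega)
      exact enum_sound hs' (fun b hb => (hgood b hb).1) h2 (fl a) hw rfl hm
    · exfalso
      have hvR : (0 : ℝ) < v := by exact_mod_cast hv0
      have hqR : (0 : ℝ) < q := by exact_mod_cast hq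
      have hσ : (0 : ℝ) ≤ (u : ℝ) / v := by positivity
      have hG := Good.word (fl a) (fl_ne a) (fun b hb => (hgood b (hw b hb)).2)
      obtain ⟨x, hx, hmid⟩ := hG.mid hσ (p := p) (q := q) hq (by omega) (by
        have h3 : ((v + 2 * u) * q : ℝ) ≤ (q - 2 * p) * (((M.length + 1 : ℕ) : ℝ) + 1) * v := by
          have : (((v + 2 * u) * q : ℕ) : ℝ) ≤
              (((q - 2 * p) * ((M.length + 1) + 1) * v : ℕ) : ℝ) := by
            exact_mod_cast hN
          push_cast [Nat.cast_sub hpq] at this
          push_cast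
          exact this
        have h4 : ((M.length + 1 : ℕ) : ℝ) ≤ (wsz (fl a) : ℕ) := by exact_mod_cast not_lt.1 hn
        have h5 : (0 : ℝ) ≤ (q : ℝ) - 2 * p := by
          have : ((2 * p : ℕ) : ℝ) ≤ q := by exact_mod_cast hpq
          push_cast at this
          linarith
        have e1 : (1 : ℝ) + 2 * (u / v) = (v + 2 * u) * q / (v * q) := by field_simp
        have e2 : (1 - 2 * ((p : ℝ) / q)) * ((wsz (fl a) : ℕ) + 1) =
            (q - 2 * p) * ((wsz (fl a) : ℕ) + 1) * v / (v * q) := by field_simp
        rw [e1, e2]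
        apply div_le_div_of_nonneg_right _ (by positivity)
        refine h3.trans ?_
        apply mul_le_mul_of_nonneg_right _ hvR.le
        apply mul_le_mul_of_nonneg_left _ h5
        linarith)
      exact hm x hx hmid

theorem wwd_le {p q u v N W : ℕ} {G : List (ℕ × List Bk)} (h0 : cert0 p q u v N W G = true)
    {w : List Bk} (hw : ∀ b ∈ w, InG G b) : wwd w ≤ W := by
  have hblk := cert0_blocks h0
  induction w with
  | nil => simp [wwd]
  | cons b w ih =>
    simp only [wwd]
    exact max_le (hblk b (hw b List.mem_cons_self)).2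
      (ih (fun c hc => hw c (List.mem_cons_of_mem _ hc)))

end Pool.Agent.Q289.SPI
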