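import Mathlib
import Pool.Agent.Q289.SPI.Rep
import Pool.Agent.TH447.KS.Upper

set_option autoImplicit false

/-!
# Series-parallel interval orders
-/

open Finset

namespace Pool.Agent.Q289.SPI

open Pool.Agent.H13R3.WB Pool.Agent.H931R3.Bal
open Pool.Agent.TH447.KS (IsIntervalOrder)

/-- series-parallel interval orders -/
def IsSPI (P : Type) [PartialOrder P] : Prop := SeriesParallel P ∧ IsIntervalOrder P

/-- infimum of the balance constants of the series-parallel interval orders of width `w` -/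
noncomputable def dSPI (w : ℕ) : ℝ :=
  sInf {d : ℝ | ∃ (P : Type) (_ : Fintype P) (_ : PartialOrder P), IsSPI P ∧
    HasWidth P w ∧ balance P = d}

lemma interval_emb {A P : Type} [PartialOrder A] [PartialOrder P] (f : A → P)
    (hf : ∀ x y, x < y ↔ f x < f y) (h : IsIntervalOrder P) : IsIntervalOrder A := by
  obtain ⟨l, u, h1, h2⟩ := h
  exact ⟨fun x => l (f x), fun x => u (f x), fun x => h1 _, fun x y => by rw [hf, h2]⟩

lemma Rep.iso {t : Tm} {P Q : Type} [PartialOrder P] [PartialOrder Q] (h : Rep t P)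
    (e : P ≃o Q) : Rep t Q := by
  cases h with
  | one _ e1 => exact Rep.one Q (e1.map fun e1 => e.symm.trans e1)
  | ser a b A B _ hA hB e1 => exact Rep.ser a b A B Q hA hB (e1.map fun e1 => e.symm.trans e1)
  | par a A _ hA e1 => exact Rep.par a A Q hA (e1.map fun e1 => e.symm.trans e1)

lemma Rep.nonempty {t : Tm} {P : Type} [PartialOrder P] (h : Rep t P) : Nonempty P := by
  induction h with
  | one P e => exact ⟨e.some.symm 0⟩
  | ser a b A B P _ _ e iA _ => exact ⟨e.some.symm (toLex (Sum.inl iA.some))⟩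
  | par a A P _ e iA => exact ⟨e.some.symm (Sum.inl iA.some)⟩

/-- the sum of isomorphisms -/
def sumIso {A B C D : Type} [PartialOrder A] [PartialOrder B] [PartialOrder C] [PartialOrder D]
    (e : A ≃o C) (f : B ≃o D) : (A ⊕ B) ≃o (C ⊕ D) where
  toEquiv := Equiv.sumCongr e.toEquiv f.toEquiv
  map_rel_iff' := by
    rintro (a | a) (b | b)
    · simp
    · simp
    · simp
    · simp

lemma rep_sum {b : Tm} {B : Type} [PartialOrder B] (hB : Rep b B) :
    (∀ x y : B, ¬ x < y) → ∀ {a : Tm} {A : Type} [PartialOrder A], Rep a A →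
      ∃ t, Rep t (A ⊕ B) := by
  induction hB with
  | one P e =>
    intro _ a A _ hA
    obtain ⟨e⟩ := e
    exact ⟨Tm.par a, Rep.par a A _ hA ⟨sumIso (OrderIso.refl A) e⟩⟩
  | ser a' b' A' B' P hA' hB' e _ _ =>
    intro hanti
    exfalso
    obtain ⟨e⟩ := e
    obtain ⟨x⟩ := hA'.nonempty
    obtain ⟨y⟩ := hB'.nonempty
    exact hanti (e.symm (toLex (Sum.inl x))) (e.symm (toLex (Sum.inr y)))
      (e.symm.lt_iff_lt.2 (Sum.Lex.inl_lt_inr x y))
  | par a' A' P hA' e ih =>
    intro hanti a A _ hA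
    obtain ⟨e⟩ := e
    obtain ⟨t, ht⟩ := ih (fun x y hxy => hanti (e.symm (Sum.inl x)) (e.symm (Sum.inl y))
      (e.symm.lt_iff_lt.2 (Sum.inl_lt_inl_iff.2 hxy))) hA
    exact ⟨Tm.par t, Rep.par t (A ⊕ A') _ ht
      ⟨(sumIso (OrderIso.refl A) e).trans (OrderIso.sumAssoc A A' (Fin 1)).symm⟩⟩

theorem exists_term {P : Type} [PartialOrder P] (h : SeriesParallel P) :
    IsIntervalOrder P → ∃ t, Rep t P := by
  induction h with
  | one P e => exact fun _ => ⟨Tm.one, Rep.one P e⟩
  | direct P Q R _ _ e ihP ihQ =>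
    intro hR
    obtain ⟨e⟩ := e
    obtain ⟨a, ha⟩ := ihP (interval_emb (fun x => e.symm (toLex (Sum.inl x)))
      (fun x y => by rw [e.symm.lt_iff_lt, Sum.Lex.inl_lt_inl_iff]) hR)
    obtain ⟨b, hb⟩ := ihQ (interval_emb (fun x => e.symm (toLex (Sum.inr x)))
      (fun x y => by rw [e.symm.lt_iff_lt, Sum.Lex.inr_lt_inr_iff]) hR)
    exact ⟨Tm.ser a b, Rep.ser a b P Q R ha hb ⟨e⟩⟩
  | disj P Q R _ _ e ihP ihQ =>
    intro hR
    obtain ⟨e⟩ := e
    obtain ⟨a, ha⟩ := ihP (interval_emb (fun x => e.symm (Sum.inl x))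
      (fun x y => by rw [e.symm.lt_iff_lt, Sum.inl_lt_inl_iff]) hR)
    obtain ⟨b, hb⟩ := ihQ (interval_emb (fun x => e.symm (Sum.inr x))
      (fun x y => by rw [e.symm.lt_iff_lt, Sum.inr_lt_inr_iff]) hR)
    by_cases hQ : ∀ x y : Q, ¬ x < y
    · obtain ⟨t, ht⟩ := rep_sum hb hQ ha
      exact ⟨t, ht.iso e.symm⟩
    · by_cases hP : ∀ x y : P, ¬ x < y
      · obtain ⟨t, ht⟩ := rep_sum ha hP hb
        exact ⟨t, ht.iso ((OrderIso.sumComm Q P).trans e.symm)⟩
      · exfalso
        push Not at hP hQ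
        obtain ⟨c, d, hcd⟩ := hQ
        obtain ⟨c', d', hcd'⟩ := hP
        obtain ⟨l, u, h1, h2⟩ := hR
        have e1 : e.symm (Sum.inr c) < e.symm (Sum.inr d) :=
          e.symm.lt_iff_lt.2 (Sum.inr_lt_inr_iff.2 hcd)
        have e2 : e.symm (Sum.inl c') < e.symm (Sum.inl d') :=
          e.symm.lt_iff_lt.2 (Sum.inl_lt_inl_iff.2 hcd')
        have e3 : ¬ e.symm (Sum.inr c) < e.symm (Sum.inl d') := by
          rw [e.symm.lt_iff_lt]
          exact Sum.not_inr_lt_inl
        have e4 : ¬ e.symm (Sum.inl c') < e.symm (Sum.inr d) := by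
          rw [e.symm.lt_iff_lt]
          exact Sum.not_inl_lt_inr
        rw [h2] at e1 e2 e3 e4
        linarith

lemma Rep.sp {t : Tm} {P : Type} [PartialOrder P] (h : Rep t P) : SeriesParallel P := by
  induction h with
  | one P e => exact SeriesParallel.one P e
  | ser a b A B P _ _ e iA iB => exact SeriesParallel.direct A B P iA iB e
  | par a A P _ e iA => exact SeriesParallel.disj A (Fin 1) P iA sp_one e

lemma fin_bounds' {A : Type} [Finite A] (l u : A → ℝ) :
    ∃ B C : ℝ, B ≤ C ∧ (∀ a, B ≤ l a) ∧ ∀ a, u a ≤ C := by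
  obtain ⟨B, hB⟩ := (Set.finite_range l).bddBelow
  obtain ⟨C, hC⟩ := (Set.finite_range u).bddAbove
  refine ⟨min B C, max B C, min_le_max, fun a => (min_le_left _ _).trans (hB ⟨a, rfl⟩), fun a =>
    (hC ⟨a, rfl⟩).trans (le_max_right _ _)⟩

lemma interval_lex {A B : Type} [PartialOrder A] [PartialOrder B] [Finite A] [Finite B]
    (hA : IsIntervalOrder A) (hB : IsIntervalOrder B) : IsIntervalOrder (A ⊕ₗ B) := by
  obtain ⟨l1, u1, h1, h2⟩ := hA
  obtain ⟨l2, u2, h3, h4⟩ := hB
  obtain ⟨B1, C1, _, _, hC1⟩ := fin_bounds' l1 u1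
  obtain ⟨B2, C2, _, hB2, _⟩ := fin_bounds' l2 u2
  have hA1 := fun a => (h1 a).trans (hC1 a)
  refine ⟨fun x => Sum.elim l1 (fun b => l2 b - B2 + C1 + 1) (ofLex x),
    fun x => Sum.elim u1 (fun b => u2 b - B2 + C1 + 1) (ofLex x), ?_, ?_⟩
  · intro x
    rcases hx : ofLex x with a | b
    · simp only [hx, Sum.elim_inl]; exact h1 a
    · simp only [hx, Sum.elim_inr]; linarith [h3 b]
  · intro x y
    rcases hx : ofLex x with a | a <;> rcases hy : ofLex y with b | b
    · have hx' : x = toLex (Sum.inl a) := by rw [← hx]; rfl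
      have hy' : y = toLex (Sum.inl b) := by rw [← hy]; rfl
      subst hx' hy'
      rw [Sum.Lex.inl_lt_inl_iff, h2]
      rfl
    · have hx' : x = toLex (Sum.inl a) := by rw [← hx]; rfl
      have hy' : y = toLex (Sum.inr b) := by rw [← hy]; rfl
      subst hx' hy'
      simp only [Sum.Lex.inl_lt_inr, ofLex_toLex, Sum.elim_inl, Sum.elim_inr, true_iff]
      linarith [hC1 a, hB2 b]
    · have hx' : x = toLex (Sum.inr a) := by rw [← hx]; rfl
      have hy' : y = toLex (Sum.inl b) := by rw [← hy]; rfl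
      subst hx' hy'
      simp only [ofLex_toLex, Sum.elim_inl, Sum.elim_inr]
      constructor
      · intro h
        exact absurd h Sum.Lex.not_inr_lt_inl
      · intro h
        exfalso
        linarith [hB2 a, h3 a, hA1 b]
    · have hx' : x = toLex (Sum.inr a) := by rw [← hx]; rfl
      have hy' : y = toLex (Sum.inr b) := by rw [← hy]; rfl
      subst hx' hy'
      rw [Sum.Lex.inr_lt_inr_iff, h4]
      simp only [ofLex_toLex, Sum.elim_inr]
      constructor <;> intro h <;> linarith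

lemma interval_par {A : Type} [PartialOrder A] [Finite A]
    (hA : IsIntervalOrder A) : IsIntervalOrder (A ⊕ Fin 1) := by
  obtain ⟨l1, u1, h1, h2⟩ := hA
  obtain ⟨B1, C1, hBC, hB1, hC1⟩ := fin_bounds' l1 u1
  refine ⟨Sum.elim l1 (fun _ => B1), Sum.elim u1 (fun _ => C1), ?_, ?_⟩
  · rintro (a | b)
    · exact h1 a
    · exact hBC
  · rintro (a | a) (b | b)
    · rw [Sum.inl_lt_inl_iff, h2]
      rfl
    · simp only [Sum.not_inl_lt_inr, Sum.elim_inl, Sum.elim_inr, false_iff, not_lt]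
      linarith [hB1 a, h1 a]
    · simp only [Sum.not_inr_lt_inl, Sum.elim_inl, Sum.elim_inr, false_iff, not_lt]
      linarith [hC1 b, h1 b]
    · simp only [Sum.elim_inr]
      rw [Subsingleton.elim a b]
      constructor
      · intro h; exact absurd h (lt_irrefl _)
      · intro h; linarith

lemma Rep.interval {t : Tm} {P : Type} [PartialOrder P] (h : Rep t P) :
    ∀ [Finite P], IsIntervalOrder P := by
  induction h with
  | one P e =>
    intro _
    obtain ⟨e⟩ := e
    refine ⟨fun _ => 0, fun _ => 0, fun _ => le_rfl, fun x y => ?_⟩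
    have : x = y := e.injective (Subsingleton.elim _ _)
    subst this
    simp
  | ser a b A B P _ _ e ihA ihB =>
    intro hP
    obtain ⟨e⟩ := e
    have fA : Finite A := Finite.of_injective (fun x : A => e.symm (toLex (Sum.inl x)))
      (fun a b h => Sum.inl_injective (toLex.injective (e.symm.injective h)))
    have fB : Finite B := Finite.of_injective (fun x : B => e.symm (toLex (Sum.inr x)))
      (fun a b h => Sum.inr_injective (toLex.injective (e.symm.injective h)))
    exact interval_emb e (fun x y => e.lt_iff_lt.symm) (interval_lex ihA ihB)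
  | par a A P _ e ihA =>
    intro hP
    obtain ⟨e⟩ := e
    have fA : Finite A := Finite.of_injective (fun x : A => e.symm (Sum.inl x))
      (fun a b h => Sum.inl_injective (e.symm.injective h))
    exact interval_emb e (fun x y => e.lt_iff_lt.symm) (interval_par ihA)

lemma Rep.isSPI {t : Tm} {P : Type} [PartialOrder P] [Finite P] (h : Rep t P) : IsSPI P :=
  ⟨h.sp, h.interval⟩

/-- every term is realized -/
theorem exists_real (t : Tm) : ∃ (P : Type) (_ : Fintype P) (_ : PartialOrder P), Rep t P := by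
  induction t with
  | one => exact ⟨Fin 1, inferInstance, inferInstance, Rep.one _ ⟨OrderIso.refl _⟩⟩
  | ser a b ha hb =>
    obtain ⟨A, i1, i2, hA⟩ := ha
    obtain ⟨B, i3, i4, hB⟩ := hb
    exact ⟨A ⊕ₗ B, inferInstance, inferInstance, Rep.ser a b A B _ hA hB ⟨OrderIso.refl _⟩⟩
  | par a ha =>
    obtain ⟨A, i1, i2, hA⟩ := ha
    exact ⟨A ⊕ Fin 1, inferInstance, inferInstance, Rep.par a A _ hA ⟨OrderIso.refl _⟩⟩

/-- antichains -/
def antiT : ℕ → Tm
  | 0 => Tm.one
  | n + 1 => Tm.par (antiT n)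

lemma wwd_antiT (n : ℕ) : wwd (fl (antiT n)) = n + 1 := by
  induction n with
  | zero => simp [antiT, fl, wwd, b1]
  | succ n ih => simp only [antiT, fl, wwd, mk, ih, Nat.max_zero]

lemma HasWidth.ne {P : Type} [PartialOrder P] {w : ℕ} (h : HasWidth P w) (hw : 1 ≤ w) :
    Nonempty P := by
  obtain ⟨⟨s, _, hc⟩, _⟩ := h
  obtain ⟨x, _⟩ := Finset.card_pos.1 (show 0 < s.card by omega)
  exact ⟨x⟩

lemma dSPI_ge {w : ℕ} (hw : 1 ≤ w) {c : ℝ} (h : ∀ (P : Type) [Fintype P] [PartialOrder P],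
    IsSPI P → HasWidth P w → c ≤ balance P) : c ≤ dSPI w := by
  unfold dSPI
  apply le_csInf
  · obtain ⟨P, i1, i2, hP⟩ := exists_real (antiT (w - 1))
    have h1 := hP.spec.wid
    rw [wwd_antiT, Nat.sub_add_cancel hw] at h1
    exact ⟨_, P, i1, i2, hP.isSPI, h1, rfl⟩
  · rintro d ⟨P, _, _, h1, h2, rfl⟩
    exact h P h1 h2

lemma dSPI_le {w : ℕ} (hw : 1 ≤ w) (P : Type) [Fintype P] [PartialOrder P] (h1 : IsSPI P)
    (h2 : HasWidth P w) : dSPI w ≤ balance P := by
  unfold dSPI
  apply csInf_le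
  · refine ⟨0, ?_⟩
    rintro d ⟨Q, _, _, _, h4, rfl⟩
    have := HasWidth.ne h4 hw
    exact balance_nonneg
  · exact ⟨P, _, _, h1, h2, rfl⟩

end Pool.Agent.Q289.SPI
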