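import Mathlib
import Pool.Agent.Q289.SPI.Clo

set_option autoImplicit false

/-!
# The blocks with balance constant less than 1/3
-/

namespace Pool.Agent.Q289.SPI

/-- the blocks by size -/
def blk2 : List (ℕ × List Bk) := [
  (1, [⟨1, 1, [(1, 1)]⟩])]

/-- places from which a word can be completed -/
def blk2M : List ℕ := [2]

set_option maxRecDepth 100000 in
lemma blk2_cert : cert0 1 3 0 1 2 1 blk2 = true := by decide +kernel

set_option maxRecDepth 100000 in
lemma blk2_enum : enumAll 1 3 blk2 blk2M 0 = true := by decide +kernel

end Pool.Agent.Q289.SPI
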