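import Mathlib
import Pool.Agent.Q289.SPI.Clo

set_option autoImplicit false

/-!
# The blocks with balance constant less than 8/21
-/

namespace Pool.Agent.Q289.SPI

/-- the blocks by size -/
def blk3 : List (ℕ × List Bk) := [
  (1, [⟨1, 1, [(1, 1)]⟩]),
  (3, [⟨3, 2, [(4, 2), (4, 3), (8, 3)]⟩])]

/-- places from which a word can be completed -/
def blk3M : List ℕ := [2, 7, 12, 24, 56]

set_option maxRecDepth 100000 in
lemma blk3_cert : cert0 8 21 1 3 6 2 blk3 = true := by decide +kernel

set_option maxRecDepth 100000 in
lemma blk3_enum : enumAll 8 21 blk3 blk3M 0 = true := by decide +kernel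

end Pool.Agent.Q289.SPI
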