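import Mathlib
import Pool.Agent.Q289.SPI.Clo

set_option autoImplicit false

/-!
# The blocks with balance constant less than 136/315
-/

namespace Pool.Agent.Q289.SPI

/-- the blocks by size -/
def blk4 : List (ℕ × List Bk) := [
  (1, [⟨1, 1, [(1, 1)]⟩]),
  (3, [⟨3, 2, [(4, 2), (4, 3), (8, 3)]⟩]),
  (5, [⟨5, 2, [(6, 2), (6, 5), (12, 5), (18, 5), (24, 5)]⟩]),
  (7, [⟨7, 2, [(8, 2), (8, 7), (16, 7), (24, 7), (32, 7), (40, 7), (48, 7)]⟩,
    ⟨7, 3, [(8, 2), (8, 7), (16, 7), (24, 7), (80, 14), (104, 21), (136, 21)]⟩,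
    ⟨7, 3, [(8, 2), (32, 14), (32, 21), (64, 21), (32, 7), (40, 7), (48, 7)]⟩,
    ⟨7, 3, [(8, 2), (32, 14), (32, 21), (64, 21), (80, 14), (104, 21), (136, 21)]⟩]),
  (9, [⟨9, 3, [(10, 2), (10, 9), (60, 18), (70, 27), (110, 27), (120, 18), (160, 27), (200, 27),
    (80, 9)]⟩]),
  (11, [⟨11, 3, [(12, 2), (12, 11), (24, 11), (96, 22), (120, 33), (168, 33), (168, 22), (228,
    33), (276, 33), (108, 11), (120, 11)]⟩])]

/-- places from which a word can be completed -/
def blk4M : List ℕ := [2, 7, 12, 31, 56, 127, 240, 499, 992, 2023, 4032, 8064, 16256]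

set_option maxRecDepth 100000 in
lemma blk4_cert : cert0 136 315 11 21 14 3 blk4 = true := by decide +kernel

set_option maxRecDepth 100000 in
lemma blk4_enum : enumAll 136 315 blk4 blk4M 0 = true := by decide +kernel

end Pool.Agent.Q289.SPI
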