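import Mathlib
import Pool.Agent.Q289.SPI.Clo

set_option autoImplicit false

/-!
# The blocks with balance constant less than 4/9
-/

namespace Pool.Agent.Q289.SPI

/-- the blocks by size -/
def blk5 : List (ℕ × List Bk) := [
  (1, [⟨1, 1, [(1, 1)]⟩]),
  (3, [⟨3, 2, [(4, 2), (4, 3), (8, 3)]⟩]),
  (5, [⟨5, 2, [(6, 2), (6, 5), (12, 5), (18, 5), (24, 5)]⟩]),
  (7, [⟨7, 2, [(8, 2), (8, 7), (16, 7), (24, 7), (32, 7), (40, 7), (48, 7)]⟩,
    ⟨7, 3, [(8, 2), (8, 7), (16, 7), (24, 7), (80, 14), (104, 21), (136, 21)]⟩,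
    ⟨7, 3, [(8, 2), (32, 14), (32, 21), (64, 21), (32, 7), (40, 7), (48, 7)]⟩,
    ⟨7, 3, [(8, 2), (32, 14), (32, 21), (64, 21), (80, 14), (104, 21), (136, 21)]⟩]),
  (9, [⟨9, 3, [(10, 2), (10, 9), (60, 18), (70, 27), (110, 27), (120, 18), (160, 27), (200, 27),
    (80, 9)]⟩]),
  (11, [⟨11, 3, [(12, 2), (12, 11), (24, 11), (96, 22), (120, 33), (168, 33), (168, 22), (228,
    33), (276, 33), (108, 11), (120, 11)]⟩,
    ⟨11, 3, [(12, 2), (12, 11), (24, 11), (96, 22), (120, 33), (168, 33), (192, 22), (372,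
    55), (444, 55), (516, 55), (588, 55)]⟩,
    ⟨11, 3, [(12, 2), (72, 22), (72, 55), (144, 55), (216, 55), (288, 55), (168, 22), (228,
    33), (276, 33), (108, 11), (120, 11)]⟩,
    ⟨11, 3, [(12, 2), (72, 22), (72, 55), (144, 55), (216, 55), (288, 55), (192, 22), (372,
    55), (444, 55), (516, 55), (588, 55)]⟩]),
  (13, [⟨13, 3, [(14, 2), (14, 13), (28, 13), (42, 13), (140, 26), (182, 39), (238, 39), (224,
    26), (308, 39), (364, 39), (140, 13), (154, 13), (168, 13)]⟩,
    ⟨13, 3, [(14, 2), (14, 13), (28, 13), (42, 13), (140, 26), (182, 39), (238, 39), (224,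
    26), (308, 39), (364, 39), (308, 26), (434, 39), (490, 39)]⟩,
    ⟨13, 3, [(14, 2), (56, 26), (56, 39), (112, 39), (140, 26), (182, 39), (238, 39), (224,
    26), (308, 39), (364, 39), (140, 13), (154, 13), (168, 13)]⟩,
    ⟨13, 3, [(14, 2), (56, 26), (56, 39), (112, 39), (140, 26), (182, 39), (238, 39), (224,
    26), (308, 39), (364, 39), (308, 26), (434, 39), (490, 39)]⟩]),
  (15, [⟨15, 4, [(16, 2), (128, 30), (128, 105), (256, 105), (384, 105), (1280, 210), (1664, 315),
    (2176, 315), (352, 30), (2080, 210), (2864, 315), (3376, 315), (1296, 105), (1424, 105),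
    (1552, 105)]⟩,
    ⟨15, 4, [(16, 2), (128, 30), (128, 105), (256, 105), (384, 105), (1280, 210), (1664, 315),
    (2176, 315), (352, 30), (2080, 210), (2864, 315), (3376, 315), (2848, 210), (4016, 315),
    (4528, 315)]⟩,
    ⟨15, 4, [(16, 2), (128, 30), (512, 210), (512, 315), (1024, 315), (1280, 210), (1664,
    315), (2176, 315), (352, 30), (2080, 210), (2864, 315), (3376, 315), (1296, 105), (1424,
    105), (1552, 105)]⟩,
    ⟨15, 4, [(16, 2), (128, 30), (512, 210), (512, 315), (1024, 315), (1280, 210), (1664,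
    315), (2176, 315), (352, 30), (2080, 210), (2864, 315), (3376, 315), (2848, 210), (4016,
    315), (4528, 315)]⟩]),
  (17, [⟨17, 4, [(18, 2), (18, 17), (180, 34), (270, 119), (414, 119), (558, 119), (1692, 238),
    (2250, 357), (2826, 357), (432, 34), (2592, 238), (3600, 357), (4176, 357), (1584, 119),
    (1728, 119), (1872, 119), (288, 17)]⟩,
    ⟨17, 4, [(18, 2), (18, 17), (180, 34), (270, 119), (414, 119), (558, 119), (1692, 238),
    (2250, 357), (2826, 357), (432, 34), (2592, 238), (3600, 357), (4176, 357), (3456, 238),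
    (4896, 357), (5472, 357), (288, 17)]⟩,
    ⟨17, 4, [(18, 2), (18, 17), (180, 34), (828, 238), (954, 357), (1530, 357), (1692, 238),
    (2250, 357), (2826, 357), (432, 34), (2592, 238), (3600, 357), (4176, 357), (1584, 119),
    (1728, 119), (1872, 119), (288, 17)]⟩,
    ⟨17, 4, [(18, 2), (18, 17), (180, 34), (828, 238), (954, 357), (1530, 357), (1692, 238),
    (2250, 357), (2826, 357), (432, 34), (2592, 238), (3600, 357), (4176, 357), (3456, 238),
    (4896, 357), (5472, 357), (288, 17)]⟩])]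

/-- places from which a word can be completed -/
def blk5M : List ℕ := [2, 7, 12, 31, 56, 127, 240, 499, 992, 2023, 4032, 8143, 16256, 32641, 65280, 130819, 261632,
  523264, 1047552]

set_option maxRecDepth 100000 in
lemma blk5_cert : cert0 4 9 197 315 20 4 blk5 = true := by decide +kernel

set_option maxRecDepth 100000 in
lemma blk5_enum : enumAll 4 9 blk5 blk5M 0 = true := by decide +kernel

end Pool.Agent.Q289.SPI
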