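import Mathlib
import Pool.Agent.Q289.SPI.Clo

set_option autoImplicit false

/-!
# Blocks with balance constant less than `p / q < 1/2` have bounded size
-/

open Finset

namespace Pool.Agent.Q289.SPI

/-- the potential -/
noncomputable def Psi (A : ℝ) (s : ℕ) : ℝ := Real.exp (A * (1 - 1 / (s : ℝ)))

/-- the gap property with parameters `R` (ends) and `J` (steps) -/
structure GW (R J : ℝ) (n : ℕ) (H : List (ℕ × ℕ)) : Prop where
  pos : ∀ x ∈ H, 0 < x.2
  bot : ∃ x ∈ H, val x ≤ R
  rng : ∀ x ∈ H, 1 ≤ val x ∧ val x ≤ n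
  nxt : ∀ x ∈ H, n + 1 - val x ≤ R ∨ ∃ y ∈ H, val x < val y ∧ val y ≤ val x + J

lemma GW.mono {R J R' J' : ℝ} {n : ℕ} {H : List (ℕ × ℕ)} (h : GW R J n H) (hR : R ≤ R')
    (hJ : J ≤ J') : GW R' J' n H := by
  obtain ⟨x, hx, h1⟩ := h.bot
  refine ⟨h.pos, ⟨x, hx, h1.trans hR⟩, h.rng, fun x hx => ?_⟩
  rcases h.nxt x hx with h2 | ⟨y, hy, h2, h3⟩
  · exact Or.inl (h2.trans hR)
  · exact Or.inr ⟨y, hy, h2, by linarith⟩

lemma whl_single (b : Bk) : whl 0 [b] = b.h := by
  simp only [whl, List.append_nil]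
  rw [List.map_congr_left (g := id) (fun x _ => by rw [shift_zero]; rfl), List.map_id]

lemma wsz_single (b : Bk) : wsz [b] = b.s := by simp [wsz]

lemma whl_cons (b : Bk) (w : List Bk) : whl 0 (b :: w) = b.h ++ (whl 0 w).map (shift b.s) := by
  have := whl_append [b] w 0
  rw [List.singleton_append, whl_single, zero_add, wsz_single] at this
  rw [this, whl_zero w b.s]

lemma GW.word {R J : ℝ} (hJ : 2 * R ≤ J) : ∀ w : List Bk, w ≠ [] →
    (∀ b ∈ w, GW R J b.s b.h) → GW R J (wsz w) (whl 0 w)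
  | [], h, _ => absurd rfl h
  | [b], _, h => by
    rw [wsz_single, whl_single]
    exact h b List.mem_cons_self
  | b :: c :: w, _, h => by
    have hb := h b List.mem_cons_self
    have hw := GW.word hJ (c :: w) (by simp) (fun d hd => h d (List.mem_cons_of_mem _ hd))
    have e1 : wsz (b :: c :: w) = b.s + wsz (c :: w) := rfl
    rw [e1, whl_cons]
    have hv : ∀ x ∈ whl 0 (c :: w), val (shift b.s x) = b.s + val x :=
      fun x hx => val_shift (hw.pos x hx) b.s
    refine ⟨?_, ?_, ?_, ?_⟩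
    · intro x hx
      rw [List.mem_append, List.mem_map] at hx
      rcases hx with hx | ⟨y, hy, rfl⟩
      · exact hb.pos x hx
      · exact hw.pos y hy
    · obtain ⟨x, hx, h1⟩ := hb.bot
      exact ⟨x, List.mem_append_left _ hx, h1⟩
    · intro x hx
      rw [List.mem_append, List.mem_map] at hx
      push_cast
      rcases hx with hx | ⟨y, hy, rfl⟩
      · have h1 := hb.rng x hx
        have h2 : (0 : ℝ) ≤ wsz (c :: w) := by positivity
        exact ⟨h1.1, by linarith [h1.2]⟩
      · have h1 := hw.rng y hy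
        rw [hv y hy]
        have h2 : (0 : ℝ) ≤ b.s := by positivity
        exact ⟨by linarith [h1.1], by linarith [h1.2]⟩
    · intro x hx
      rw [List.mem_append, List.mem_map] at hx
      push_cast
      rcases hx with hx | ⟨y, hy, rfl⟩
      · right
        rcases hb.nxt x hx with h1 | ⟨z, hz, h1, h2⟩
        · obtain ⟨z, hz, h3⟩ := hw.bot
          refine ⟨shift b.s z, List.mem_append_right _ (List.mem_map.2 ⟨z, hz, rfl⟩), ?_, ?_⟩
          · rw [hv z hz]
            linarith [(hb.rng x hx).2, (hw.rng z hz).1]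
          · rw [hv z hz]
            linarith
        · exact ⟨z, List.mem_append_left _ hz, h1, h2⟩
      · rw [hv y hy]
        rcases hw.nxt y hy with h1 | ⟨z, hz, h1, h2⟩
        · left; linarith
        · right
          refine ⟨shift b.s z, List.mem_append_right _ (List.mem_map.2 ⟨z, hz, rfl⟩), ?_, ?_⟩
          · rw [hv z hz]; linarith
          · rw [hv z hz]; linarith

/-- large words have a height in the middle -/
lemma GW.mid {R J : ℝ} (hRJ : R ≤ J) {n : ℕ} {H : List (ℕ × ℕ)} (h : GW R J n H)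
    {p q : ℕ} (hq : 0 < q) (hpq : p ≤ q) (hn : J ≤ (1 - 2 * ((p : ℝ) / q)) * (n + 1)) :
    ∃ x ∈ H, Mid p q n x := by
  classical
  set c : ℝ := (p : ℝ) / q with hc
  have hc0 : 0 ≤ c := by positivity
  have hn1 : (0 : ℝ) < (n : ℝ) + 1 := by positivity
  have hmid : ∀ x ∈ H, c * (n + 1) ≤ val x → val x ≤ (1 - c) * (n + 1) → Mid p q n x := by
    intro x hx h1 h2
    rw [mid_iff hq hpq (h.pos x hx)]
    constructor
    · rw [le_div_iff₀ hn1]; exact h1
    · have : val x / (n + 1) ≤ 1 - c := by rw [div_le_iff₀ hn1]; exact h2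
      linarith
  have hcn : 0 ≤ c * (n + 1) := by positivity
  have hhi : J ≤ (1 - c) * (n + 1) := by nlinarith
  by_cases hT : ∃ x ∈ H, val x < c * (n + 1)
  · obtain ⟨x0, hx0, h0⟩ := hT
    obtain ⟨x, hx, hmax⟩ := (H.toFinset.filter (fun x => val x < c * (n + 1))).exists_max_image
      val ⟨x0, by rw [mem_filter, List.mem_toFinset]; exact ⟨hx0, h0⟩⟩
    rw [mem_filter, List.mem_toFinset] at hx
    rcases h.nxt x hx.1 with h1 | ⟨y, hy, h1, h2⟩
    · exfalso
      nlinarith [hx.2]
    · refine ⟨y, hy, hmid y hy ?_ ?_⟩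
      · by_contra hcon
        have := hmax y (by rw [mem_filter, List.mem_toFinset]; exact ⟨hy, not_le.1 hcon⟩)
        linarith
      · have := hx.2
        nlinarith
  · push Not at hT
    obtain ⟨x, hx, h1⟩ := h.bot
    exact ⟨x, hx, hmid x hx (hT x hx) (by linarith)⟩

/-- good blocks -/
structure NB (A K : ℝ) (b : Bk) : Prop where
  s1 : 1 ≤ b.s
  z : ∃ x ∈ b.h, val x = ((b.s : ℝ) + 1) / 2
  gw : GW (Psi A b.s) (2 * K * Psi A b.s) b.s b.h

lemma psi_one_le {A : ℝ} (hA : 0 ≤ A) {s : ℕ} (hs : 1 ≤ s) : 1 ≤ Psi A s := by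
  unfold Psi
  apply Real.one_le_exp
  apply mul_nonneg hA
  have : (1 : ℝ) ≤ s := by exact_mod_cast hs
  have h2 : 1 / (s : ℝ) ≤ 1 := by rw [div_le_one (by linarith)]; exact this
  linarith

lemma psi_le {A : ℝ} (hA : 0 ≤ A) {s : ℕ} (hs : 1 ≤ s) : Psi A s ≤ Real.exp A := by
  unfold Psi
  apply Real.exp_le_exp.2
  have : (0 : ℝ) < s := by exact_mod_cast hs
  have h2 : 0 ≤ 1 / (s : ℝ) := by positivity
  nlinarith

/-- the potential grows faster than the heights -/
lemma psi_step {A c : ℝ} (hc0 : 0 < c) (hc : 2 * c < 1) (hA : A = 2 * c / (1 - 2 * c)) {s n : ℕ}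
    (hs : 1 ≤ s) (hn : (s : ℝ) + 1 < 2 * c * (n + 1)) :
    Psi A s * ((n + 2) / (n + 1)) ≤ Psi A (n + 1) := by
  have hsR : (1 : ℝ) ≤ s := by exact_mod_cast hs
  have hs0 : (0 : ℝ) < s := by linarith
  have hn1 : (0 : ℝ) < (n : ℝ) + 1 := by positivity
  have hc1 : 0 < 1 - 2 * c := by linarith
  have h1 : ((n : ℝ) + 2) / (n + 1) ≤ Real.exp (1 / (n + 1)) := by
    have := Real.add_one_le_exp (1 / ((n : ℝ) + 1))
    refine le_trans (le_of_eq ?_) this
    field_simp
    ring
  unfold Psi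
  refine (mul_le_mul_of_nonneg_left h1 (Real.exp_nonneg _)).trans ?_
  rw [← Real.exp_add]
  apply Real.exp_le_exp.2
  push_cast
  have h2 : 1 / ((n : ℝ) + 1) ≤ A * (1 / s - 1 / (n + 1)) := by
    have e : A * (1 / (s : ℝ) - 1 / (n + 1)) = A * ((n + 1) - s) / s / (n + 1) := by
      field_simp
    rw [e]
    apply div_le_div_of_nonneg_right _ hn1.le
    rw [le_div_iff₀ hs0, one_mul, hA, div_mul_eq_mul_div, le_div_iff₀ hc1]
    nlinarith
  linarith

lemma block_small {p q : ℕ} (hq : 0 < q) (hpq : p ≤ q) {A K : ℝ} {w : List Bk}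
    (hw : ∀ b ∈ w, NB A K b) (hm : ∀ x ∈ whl 0 w, ¬ Mid p q (wsz w) x) :
    ∀ b ∈ w, (b.s : ℝ) + 1 < 2 * ((p : ℝ) / q) * ((wsz w : ℕ) + 1) := by
  intro b hb
  obtain ⟨u, v, rfl⟩ := List.append_of_mem hb
  obtain ⟨x, hx, hxv⟩ := (hw b hb).z
  have hxp := (hw b hb).gw.pos x hx
  have hmem : shift (wsz u) x ∈ whl 0 (u ++ b :: v) := by
    rw [whl_append, zero_add]
    apply List.mem_append_right
    simp only [whl]
    exact List.mem_append_left _ (List.mem_map.2 ⟨x, hx, rfl⟩)
  have h1 := hm _ hmem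
  have hxp' : 0 < (shift (wsz u) x).2 := hxp
  rw [mid_iff hq hpq hxp', val_shift hxp, hxv] at h1
  have hsz : wsz (u ++ b :: v) = wsz u + (b.s + wsz v) := by rw [wsz_append]; rfl
  have hszR : ((wsz (u ++ b :: v) : ℕ) : ℝ) = wsz u + (b.s + wsz v) := by rw [hsz]; push_cast; ring
  have hn1 : (0 : ℝ) < ((wsz (u ++ b :: v) : ℕ) : ℝ) + 1 := by positivity
  have hu : (0 : ℝ) ≤ wsz u := by positivity
  have hv : (0 : ℝ) ≤ wsz v := by positivity
  rw [not_and_or, not_le, not_le] at h1
  rcases h1 with h1 | h1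
  · rw [div_lt_iff₀ hn1] at h1
    linarith
  · have h2 : 1 - (p : ℝ) / q < (wsz u + ((b.s : ℝ) + 1) / 2) /
        (((wsz (u ++ b :: v) : ℕ) : ℝ) + 1) := by linarith
    rw [lt_div_iff₀ hn1] at h2
    linarith

lemma nb_mk {p q : ℕ} (hp : 0 < p) (hpq : 2 * p < q) {A : ℝ}
    (hA : A = 2 * ((p : ℝ) / q) / (1 - 2 * ((p : ℝ) / q))) {w : List Bk} (hne : w ≠ [])
    (hw : ∀ b ∈ w, NB A (Real.exp A) b) (hm : ∀ x ∈ whl 0 w, ¬ Mid p q (wsz w) x) :
    NB A (Real.exp A) (mk w) ∧
      ((wsz w : ℕ) : ℝ) + 1 ≤ 2 * Real.exp A * Real.exp A / (1 - 2 * ((p : ℝ) / q)) := by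
  classical
  have hq : 0 < q := by omega
  have hqR : (0 : ℝ) < q := by exact_mod_cast hq
  have hpR : (0 : ℝ) < p := by exact_mod_cast hp
  set c : ℝ := (p : ℝ) / q with hc
  have hc0 : 0 < c := by positivity
  have hc1 : 2 * c < 1 := by
    rw [hc, ← mul_div_assoc, div_lt_one hqR]
    exact_mod_cast hpq
  have hc2 : 0 < 1 - 2 * c := by linarith
  have hA0 : 0 ≤ A := by rw [hA]; positivity
  set K := Real.exp A with hK
  have hK1 : 1 ≤ K := Real.one_le_exp hA0
  set n := wsz w with hn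
  have hsmall := block_small hq (by omega) hw hm
  have hn0 : 1 ≤ n := by
    obtain ⟨b, w', rfl⟩ := List.exists_cons_of_ne_nil hne
    have := (hw b List.mem_cons_self).s1
    rw [hn]
    simp only [wsz]
    omega
  have hnR : (1 : ℝ) ≤ n := by exact_mod_cast hn0
  have hn1 : (0 : ℝ) < (n : ℝ) + 1 := by positivity
  have hn2 : (0 : ℝ) < (n : ℝ) + 2 := by positivity
  set P := Psi A (n + 1) with hP
  set R := P * ((n + 1) / (n + 2)) with hR
  have hRP : R * (((n : ℝ) + 2) / (n + 1)) = P := by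
    rw [hR]; field_simp
  have hP1 : 1 ≤ P := psi_one_le hA0 (by omega)
  have hPK : P ≤ K := psi_le hA0 (by omega)
  have hblk : ∀ b ∈ w, Psi A b.s ≤ R := by
    intro b hb
    have h1 := psi_step hc0 hc1 hA (hw b hb).s1 (hsmall b hb)
    have h2 : Psi A b.s * (((n : ℝ) + 2) / (n + 1)) ≤ R * (((n : ℝ) + 2) / (n + 1)) := by
      rw [hRP]
      exact h1
    exact le_of_mul_le_mul_right h2 (by positivity)
  have hR1 : 1 ≤ R := by
    obtain ⟨b, w', hbw⟩ := List.exists_cons_of_ne_nil hne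
    have hb : b ∈ w := by rw [hbw]; exact List.mem_cons_self
    exact (psi_one_le hA0 (hw b hb).s1).trans (hblk b hb)
  have hRle : R ≤ P := by
    rw [hR]
    have : ((n : ℝ) + 1) / (n + 2) ≤ 1 := by rw [div_le_one hn2]; linarith
    nlinarith
  have hword : GW R (2 * K * R) n (whl 0 w) := by
    apply GW.word (by nlinarith) w hne
    intro b hb
    exact (hw b hb).gw.mono (hblk b hb) (by
      have := hblk b hb
      nlinarith)
  constructor
  · -- the new block
    set H := whl 0 w with hH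
    have emk : (mk w).h = (n + 2, 2) :: H.map (scal n) := rfl
    have es : (mk w).s = n + 1 := rfl
    have esR : (((mk w).s : ℕ) : ℝ) = n + 1 := by rw [es]; push_cast; ring
    have hz : val (n + 2, 2) = ((n : ℝ) + 2) / 2 := by unfold val; push_cast; ring
    have hsc : ∀ x, val (scal n x) = val x * (((n : ℝ) + 2) / (n + 1)) := by
      intro x; rw [val_scal, mul_div_assoc]
    have hfac : 1 ≤ ((n : ℝ) + 2) / (n + 1) := by rw [le_div_iff₀ hn1]; linarith
    have hfac0 : 0 < ((n : ℝ) + 2) / (n + 1) := by positivity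
    refine ⟨by rw [es]; omega, ⟨_, by rw [emk]; exact List.mem_cons_self, by
      rw [hz, esR]; ring⟩, ?_⟩
    have hPs : Psi A (mk w).s = P := by rw [es]
    rw [hPs]
    have hnx : ∀ x ∈ H, (n : ℝ) + 1 + 1 - val (scal n x) ≤ P ∨
        ∃ y ∈ H, val (scal n x) < val (scal n y) ∧ val (scal n y) ≤ val (scal n x) + 2 * K * P := by
      intro x hx
      rcases hword.nxt x hx with h1 | ⟨y, hy, h1, h2⟩
      · left
        rw [hsc, ← hRP]
        have e : (n : ℝ) + 1 + 1 = (n + 1) * ((n + 2) / (n + 1)) := by field_simp; ring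
        rw [e, ← sub_mul]
        exact mul_le_mul_of_nonneg_right h1 hfac0.le
      · right
        refine ⟨y, hy, ?_, ?_⟩
        · rw [hsc, hsc]
          exact mul_lt_mul_of_pos_right h1 hfac0
        · rw [hsc, hsc, ← hRP]
          have := mul_le_mul_of_nonneg_right h2 hfac0.le
          linarith
    refine ⟨?_, ?_, ?_, ?_⟩
    · intro x hx
      rw [emk, List.mem_cons, List.mem_map] at hx
      rcases hx with rfl | ⟨y, hy, rfl⟩
      · norm_num
      · exact Nat.mul_pos (hword.pos y hy) (by omega)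
    · obtain ⟨x, hx, h1⟩ := hword.bot
      refine ⟨scal n x, by rw [emk]; exact List.mem_cons_of_mem _ (List.mem_map.2 ⟨x, hx, rfl⟩), ?_⟩
      rw [hsc, ← hRP]
      exact mul_le_mul_of_nonneg_right h1 hfac0.le
    · intro x hx
      rw [esR]
      rw [emk, List.mem_cons, List.mem_map] at hx
      rcases hx with rfl | ⟨y, hy, rfl⟩
      · rw [hz]
        constructor <;> linarith
      · have h1 := hword.rng y hy
        rw [hsc]
        constructor
        · nlinarith [h1.1]
        · rw [← mul_div_assoc, div_le_iff₀ hn1]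
          nlinarith [h1.2]
    · intro x hx
      rw [esR]
      rw [emk, List.mem_cons, List.mem_map] at hx
      rcases hx with rfl | ⟨y, hy, rfl⟩
      · rw [hz]
        by_cases hT : ∃ y ∈ H, val (scal n y) ≤ ((n : ℝ) + 2) / 2
        · obtain ⟨y0, hy0, h0⟩ := hT
          obtain ⟨y, hy, hmax⟩ := (H.toFinset.filter
            (fun y => val (scal n y) ≤ ((n : ℝ) + 2) / 2)).exists_max_image
            (fun y => val (scal n y)) ⟨y0, by rw [mem_filter, List.mem_toFinset]; exact ⟨hy0, h0⟩⟩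
          rw [mem_filter, List.mem_toFinset] at hy
          rcases hnx y hy.1 with h1 | ⟨y', hy', h1, h2⟩
          · left
            linarith [hy.2]
          · right
            refine ⟨scal n y', by
              rw [emk]; exact List.mem_cons_of_mem _ (List.mem_map.2 ⟨y', hy', rfl⟩), ?_, ?_⟩
            · by_contra hcon
              have := hmax y' (by rw [mem_filter, List.mem_toFinset]; exact ⟨hy', not_lt.1 hcon⟩)
              linarith
            · linarith [hy.2]
        · push Not at hT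
          right
          obtain ⟨y, hy, h1⟩ := hword.bot
          refine ⟨scal n y, by
            rw [emk]; exact List.mem_cons_of_mem _ (List.mem_map.2 ⟨y, hy, rfl⟩), hT y hy, ?_⟩
          have h2 : val (scal n y) ≤ P := by
            rw [hsc, ← hRP]
            exact mul_le_mul_of_nonneg_right h1 hfac0.le
          nlinarith
      · rcases hnx y hy with h1 | ⟨y', hy', h1, h2⟩
        · exact Or.inl h1
        · exact Or.inr ⟨scal n y', by
            rw [emk]; exact List.mem_cons_of_mem _ (List.mem_map.2 ⟨y', hy', rfl⟩), h1, h2⟩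
  · -- the size
    by_contra hcon
    rw [not_le, div_lt_iff₀ hc2] at hcon
    obtain ⟨x, hx, hmid⟩ := hword.mid (p := p) (q := q) (by nlinarith) hq (by omega) (by
      rw [← hc]
      have h1 : 2 * K * R ≤ 2 * K * K := by nlinarith
      linarith)
    exact hm x hx hmid

/-- the size bound -/
noncomputable def Nb (c : ℝ) : ℝ :=
  2 * Real.exp (2 * c / (1 - 2 * c)) * Real.exp (2 * c / (1 - 2 * c)) / (1 - 2 * c)

theorem blocks_bounded {p q : ℕ} (hp : 0 < p) (hpq : 2 * p < q) : ∀ t, GLt p q t →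
    ∀ b ∈ fl t, NB (2 * ((p : ℝ) / q) / (1 - 2 * ((p : ℝ) / q)))
      (Real.exp (2 * ((p : ℝ) / q) / (1 - 2 * ((p : ℝ) / q)))) b ∧ (b.s : ℝ) ≤ Nb ((p : ℝ) / q) := by
  have hq : 0 < q := by omega
  have hqR : (0 : ℝ) < q := by exact_mod_cast hq
  have hpR : (0 : ℝ) < p := by exact_mod_cast hp
  have hc1 : 2 * ((p : ℝ) / q) < 1 := by
    rw [← mul_div_assoc, div_lt_one hqR]
    exact_mod_cast hpq
  have hc0 : 0 < (p : ℝ) / q := by positivity
  have hA0 : 0 ≤ 2 * ((p : ℝ) / q) / (1 - 2 * ((p : ℝ) / q)) := by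
    apply div_nonneg (by positivity)
    linarith
  intro t
  induction t with
  | one =>
    intro _ b hb
    simp only [fl, List.mem_singleton] at hb
    subst hb
    have hv : val (1, 1) = 1 := by simp [val]
    have hP : Psi (2 * ((p : ℝ) / q) / (1 - 2 * ((p : ℝ) / q))) 1 = 1 := by simp [Psi]
    refine ⟨⟨le_rfl, ⟨(1, 1), by simp [b1], by rw [hv]; simp [b1]⟩, ?_⟩, ?_⟩
    · show GW (Psi _ 1) (2 * _ * Psi _ 1) 1 [(1, 1)]
      rw [hP]
      refine ⟨?_, ⟨(1, 1), by simp, by rw [hv]⟩, ?_, ?_⟩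
      · intro x hx
        rw [List.mem_singleton] at hx
        rw [hx]; norm_num
      · intro x hx
        rw [List.mem_singleton] at hx
        rw [hx, hv]; norm_num
      · intro x hx
        rw [List.mem_singleton] at hx
        rw [hx, hv]; left; norm_num
    · show ((1 : ℕ) : ℝ) ≤ Nb _
      unfold Nb
      have h1 := Real.one_le_exp hA0
      rw [le_div_iff₀ (by linarith)]
      push_cast
      nlinarith
  | ser a b iha ihb =>
    rintro ⟨ha, hb⟩ c hc
    simp only [fl, List.mem_append] at hc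
    rcases hc with hc | hc
    · exact iha ha c hc
    · exact ihb hb c hc
  | par a iha =>
    rintro ⟨ha, hm⟩ c hc
    simp only [fl, List.mem_singleton] at hc
    subst hc
    obtain ⟨h1, h2⟩ := nb_mk hp hpq rfl (fl_ne a) (fun b hb => (iha ha b hb).1) hm
    refine ⟨h1, ?_⟩
    have e : (((mk (fl a)).s : ℕ) : ℝ) = (wsz (fl a) : ℕ) + 1 := by
      show ((wsz (fl a) + 1 : ℕ) : ℝ) = _
      push_cast; ring
    rw [e]
    exact h2

end Pool.Agent.Q289.SPI
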