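import Mathlib
import Pool.Agent.Q289.SPI.Cls

set_option autoImplicit false

/-!
# The upper bound `1/2 - 1/(12 w - 8)` for series-parallel interval orders of width `w`
-/

open Finset

namespace Pool.Agent.Q289.SPI

open Pool.Agent.H13R3.WB Pool.Agent.H931R3.Bal

/-- the state of the construction -/
structure GP (P : Type) [Fintype P] [PartialOrder P] (n w : ℕ) (c b : ℝ) : Prop where
  rep : ∃ t, Rep t P
  n1 : 1 ≤ n
  b0 : 0 ≤ b
  card : Fintype.card P = n
  wid : HasWidth P w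
  one_le : ∀ y, 1 ≤ ht P n y
  sep : ∀ y z : P, y ≠ z → ht P n y < c → ht P n z < c → 1 ≤ |ht P n y - ht P n z|
  bal : balance P ≤ b

section

variable {P : Type} [Fintype P] [PartialOrder P] {n w : ℕ} {c b : ℝ}

lemma GP.mono (h : GP P n w c b) {c' : ℝ} (hc : c' ≤ c) : GP P n w c' b :=
  ⟨h.rep, h.n1, h.b0, h.card, h.wid, h.one_le,
    fun y z hyz h1 h2 => h.sep y z hyz (h1.trans_le hc) (h2.trans_le hc), h.bal⟩

lemma GP.bot (h : GP P n w c b) (hw : 1 ≤ w) : GP (Fin 1 ⊕ₗ P) (1 + n) w (c + 1) b := by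
  have hne : Nonempty P := HasWidth.ne h.wid hw
  have hc1 : Fintype.card (Fin 1) = 1 := by simp
  obtain ⟨t, ht1⟩ := h.rep
  have hcard : Fintype.card (Fin 1 ⊕ₗ P) = 1 + n := by rw [card_lexS, hc1, h.card]
  have e1 : ∀ x : Fin 1, ht (Fin 1 ⊕ₗ P) (1 + n) (toLex (Sum.inl x)) = 1 := by
    intro x
    rw [ht_lex_inl hc1 h.card, ht_one]
  have e2 : ∀ y : P, ht (Fin 1 ⊕ₗ P) (1 + n) (toLex (Sum.inr y)) = 1 + ht P n y := by
    intro y
    rw [ht_lex_inr hc1 h.card]
    push_cast
    ring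
  have hcase : ∀ x : Fin 1 ⊕ₗ P, (∃ u : Fin 1, x = toLex (Sum.inl u)) ∨
      ∃ u : P, x = toLex (Sum.inr u) := by
    intro x
    rcases hx : ofLex x with u | u
    · exact Or.inl ⟨u, by rw [← hx]; rfl⟩
    · exact Or.inr ⟨u, by rw [← hx]; rfl⟩
  refine ⟨⟨Tm.ser Tm.one t, Rep.ser _ _ (Fin 1) P _ (Rep.one _ ⟨OrderIso.refl _⟩) ht1
    ⟨OrderIso.refl _⟩⟩, by omega, h.b0, hcard, ?_, ?_, ?_, ?_⟩
  · have := HasWidth.lex width_one h.wid
    rwa [max_eq_right hw] at this
  · intro y
    rcases hcase y with ⟨u, rfl⟩ | ⟨u, rfl⟩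
    · rw [e1]
    · rw [e2]
      have := h.one_le u
      linarith
  · intro y z hyz h1 h2
    rcases hcase y with ⟨u, rfl⟩ | ⟨u, rfl⟩ <;> rcases hcase z with ⟨v, rfl⟩ | ⟨v, rfl⟩
    · exact absurd (by rw [Subsingleton.elim u v]) hyz
    · rw [e1, e2]
      have := h.one_le v
      rw [abs_sub_comm]
      refine le_trans ?_ (le_abs_self _)
      linarith
    · rw [e1, e2]
      have := h.one_le u
      refine le_trans ?_ (le_abs_self _)
      linarith
    · rw [e2] at h1 h2
      rw [e2, e2]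
      have := h.sep u v (fun h => hyz (by rw [h])) (by linarith) (by linarith)
      have e : 1 + ht P n u - (1 + ht P n v) = ht P n u - ht P n v := by ring
      rw [e]
      exact this
  · have : Nonempty (Fin 1 ⊕ₗ P) := ⟨toLex (Sum.inl 0)⟩
    apply balance_le_pairs hcard
    intro x y
    rcases hcase x with ⟨u, rfl⟩ | ⟨u, rfl⟩ <;> rcases hcase y with ⟨v, rfl⟩ | ⟨v, rfl⟩
    · rw [Subsingleton.elim u v, pr_self]
      simpa using h.b0
    · refine (min_le_right _ _).trans ?_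
      rw [pr_zero_of_lt (Sum.Lex.inl_lt_inr u v)]
      exact h.b0
    · refine (min_le_left _ _).trans ?_
      rw [pr_zero_of_lt (Sum.Lex.inl_lt_inr v u)]
      exact h.b0
    · rw [pr_lex_inr hc1 h.card, pr_lex_inr hc1 h.card]
      exact (pairs_le h.card u v).trans h.bal

lemma GP.par (h : GP P n w c b) (hc : c ≤ ((n : ℝ) + 1) / 2) {b' : ℝ} (hb : b ≤ b')
    (hb' : 1 / 2 - 1 / (4 * ((n : ℝ) + 1)) ≤ b')
    (hd : ∀ y, 1 / 4 ≤ |ht P n y - ((n : ℝ) + 1) / 2|) :
    GP (P ⊕ Fin 1) (n + 1) (w + 1) (c * (n + 2) / (n + 1)) b' := by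
  obtain ⟨t, ht1⟩ := h.rep
  have hn1 : (0 : ℝ) < (n : ℝ) + 1 := by positivity
  have hcard : Fintype.card (P ⊕ Fin 1) = n + 1 := by rw [Fintype.card_sum, h.card]; simp
  have hr : (1 : ℝ) ≤ ((n : ℝ) + 2) / (n + 1) := by
    rw [le_div_iff₀ hn1]; linarith
  have e1 : ∀ y : P, ht (P ⊕ Fin 1) (n + 1) (Sum.inl y) = ht P n y * (((n : ℝ) + 2) / (n + 1)) := by
    intro y
    rw [ht_par_inl h.card, mul_div_assoc]
  refine ⟨⟨Tm.par t, Rep.par _ P _ ht1 ⟨OrderIso.refl _⟩⟩, by omega, h.b0.trans hb, hcard,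
    HasWidth.par h.wid, ?_, ?_, ?_⟩
  · intro y
    rcases y with y | y
    · rw [e1]
      have := h.one_le y
      nlinarith
    · rw [ht_par_inr h.card]
      have : (1 : ℝ) ≤ n := by exact_mod_cast h.n1
      linarith
  · intro y z hyz h1 h2
    have hinr : ∀ u : Fin 1, ¬ ht (P ⊕ Fin 1) (n + 1) (Sum.inr u) < c * (n + 2) / (n + 1) := by
      intro u hu
      rw [ht_par_inr h.card, lt_div_iff₀ hn1] at hu
      have : c * (n + 2) ≤ ((n : ℝ) + 1) / 2 * (n + 2) :=
        mul_le_mul_of_nonneg_right hc (by positivity)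
      linarith
    rcases y with y | y
    · rcases z with z | z
      · rw [e1, mul_div_assoc] at h1 h2
        rw [e1, e1, ← sub_mul, abs_mul, abs_of_pos (lt_of_lt_of_le one_pos hr)]
        have h3 := h.sep y z (fun h => hyz (by rw [h]))
          (lt_of_mul_lt_mul_right h1 (by positivity)) (lt_of_mul_lt_mul_right h2 (by positivity))
        nlinarith
      · exact absurd h2 (hinr z)
    · exact absurd h1 (hinr y)
  · have : Nonempty (P ⊕ Fin 1) := ⟨Sum.inr 0⟩
    have key : ∀ y : P, min (1 - ht P n y / ((n : ℝ) + 1)) (ht P n y / ((n : ℝ) + 1)) ≤ b' := by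
      intro y
      refine le_trans ?_ hb'
      rcases le_abs.1 (hd y) with h1 | h1
      · refine (min_le_left _ _).trans ?_
        have : 1 / 2 + 1 / (4 * ((n : ℝ) + 1)) ≤ ht P n y / ((n : ℝ) + 1) := by
          rw [le_div_iff₀ hn1]
          have : (1 / 2 + 1 / (4 * ((n : ℝ) + 1))) * (n + 1) = ((n : ℝ) + 1) / 2 + 1 / 4 := by
            field_simp
          rw [this]
          linarith
        linarith
      · refine (min_le_right _ _).trans ?_
        rw [div_le_iff₀ hn1]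
        have : (1 / 2 - 1 / (4 * ((n : ℝ) + 1))) * (n + 1) = ((n : ℝ) + 1) / 2 - 1 / 4 := by
          field_simp
        rw [this]
        linarith
    apply balance_le_pairs hcard
    intro x y
    rcases x with x | x <;> rcases y with y | y
    · rw [pr_disj_inl h.card (by simp), pr_disj_inl h.card (by simp)]
      exact (pairs_le h.card x y).trans (h.bal.trans hb)
    · rw [pr_z h.card, pr_z' h.card]
      exact key x
    · rw [pr_z h.card, pr_z' h.card, min_comm]
      exact key y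
    · rw [Subsingleton.elim y x, pr_self]
      simpa using h.b0.trans hb

theorem GP.step (hw : 1 ≤ w) (hn : n + 1 ≤ 3 * w - 1)
    (h : GP P n w (((n : ℝ) + 1) / 2) b) (hb : b ≤ 1 / 2 - 1 / (12 * ((w : ℝ) + 1) - 8)) :
    ∃ (m : ℕ) (Q : Type) (_ : Fintype Q) (_ : PartialOrder Q), m + 1 ≤ 3 * (w + 1) - 1 ∧
      GP Q m (w + 1) (((m : ℝ) + 1) / 2) (1 / 2 - 1 / (12 * ((w : ℝ) + 1) - 8)) := by
  have hnR : ((n : ℝ) + 1) ≤ 3 * w - 1 := by
    have h1 : n + 1 + 1 ≤ 3 * w := by omega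
    have h2 : ((n + 1 + 1 : ℕ) : ℝ) ≤ ((3 * w : ℕ) : ℝ) := by exact_mod_cast h1
    push_cast at h2
    linarith
  have hn1R : (1 : ℝ) ≤ n := by exact_mod_cast h.n1
  have hc1 : Fintype.card (Fin 1) = 1 := by simp
  by_cases hk : ∀ y, 1 / 4 ≤ |ht P n y - (n : ℝ) / 2|
  · -- one new least element
    have h1 := h.bot hw
    have h2 : GP (Fin 1 ⊕ₗ P) (1 + n) w ((((1 + n : ℕ) : ℝ) + 1) / 2) b :=
      h1.mono (by push_cast; linarith)
    have h3 := h2.par (b' := 1 / 2 - 1 / (12 * ((w : ℝ) + 1) - 8)) le_rfl hb (by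
      push_cast
      have : 1 / (12 * ((w : ℝ) + 1) - 8) ≤ 1 / (4 * (1 + (n : ℝ) + 1)) := by
        apply one_div_le_one_div_of_le (by positivity)
        linarith
      linarith) (by
      intro y
      push_cast
      rcases hy : ofLex y with u | u
      · have hy' : y = toLex (Sum.inl u) := by rw [← hy]; rfl
        subst hy'
        rw [ht_lex_inl hc1 h.card, ht_one, abs_sub_comm]
        refine le_trans ?_ (le_abs_self _)
        linarith
      · have hy' : y = toLex (Sum.inr u) := by rw [← hy]; rfl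
        subst hy'
        rw [ht_lex_inr hc1 h.card]
        have := hk u
        have e : ((1 : ℕ) : ℝ) + ht P n u - (1 + (n : ℝ) + 1) / 2 = ht P n u - (n : ℝ) / 2 := by
          push_cast; ring
        rw [e]
        exact this)
    refine ⟨1 + n + 1, (Fin 1 ⊕ₗ P) ⊕ Fin 1, inferInstance, inferInstance, by omega, ?_⟩
    have e : (((1 + n : ℕ) : ℝ) + 1) / 2 * (((1 + n : ℕ) : ℝ) + 2) / (((1 + n : ℕ) : ℝ) + 1) =
        (((1 + n + 1 : ℕ) : ℝ) + 1) / 2 := by
      push_cast
      field_simp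
      ring
    rw [e] at h3
    exact h3
  · -- two new elements
    push Not at hk
    obtain ⟨y0, hy0⟩ := hk
    have hy0' := abs_lt.1 hy0
    have hn2 : (2 : ℝ) ≤ n := by
      have h1 := h.one_le y0
      have h2 : (3 / 2 : ℝ) < n := by linarith [hy0'.2]
      have h3 : 1 < n := by
        by_contra h4
        have h5 : (n : ℝ) ≤ 1 := by exact_mod_cast not_lt.1 h4
        linarith
      exact_mod_cast h3
    have hk2 : ∀ y, 1 / 4 ≤ |ht P n y - ((n : ℝ) - 1) / 2| := by
      intro y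
      by_contra hy
      rw [not_le] at hy
      have hy' := abs_lt.1 hy
      by_cases hyy : y = y0
      · subst hyy
        linarith [hy'.2, hy0'.1, hy'.1, hy0'.2]
      · have h1 := h.sep y y0 hyy (by linarith [hy'.2]) (by linarith [hy0'.2])
        rcases le_abs.1 h1 with h2 | h2
        · linarith [hy'.2, hy0'.1]
        · linarith [hy'.1, hy0'.2]
    have h1 := (h.bot hw).bot hw
    have hcc := (h.bot hw).card
    have h2 : GP (Fin 1 ⊕ₗ (Fin 1 ⊕ₗ P)) (1 + (1 + n)) w ((((1 + (1 + n) : ℕ) : ℝ) + 1) / 2) b :=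
      h1.mono (by push_cast; linarith)
    have h3 := h2.par (b' := 1 / 2 - 1 / (12 * ((w : ℝ) + 1) - 8)) le_rfl hb (by
      push_cast
      have : 1 / (12 * ((w : ℝ) + 1) - 8) ≤ 1 / (4 * (1 + (1 + (n : ℝ)) + 1)) := by
        apply one_div_le_one_div_of_le (by positivity)
        linarith
      linarith) (by
      intro y
      push_cast
      rcases hy : ofLex y with u | u
      · have hy' : y = toLex (Sum.inl u) := by rw [← hy]; rfl
        subst hy'
        rw [ht_lex_inl hc1 hcc, ht_one, abs_sub_comm]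
        refine le_trans ?_ (le_abs_self _)
        linarith
      · have hy' : y = toLex (Sum.inr u) := by rw [← hy]; rfl
        subst hy'
        rw [ht_lex_inr hc1 hcc]
        rcases hu : ofLex u with v | v
        · have hu' : u = toLex (Sum.inl v) := by rw [← hu]; rfl
          subst hu'
          rw [ht_lex_inl hc1 h.card, ht_one, abs_sub_comm]
          refine le_trans ?_ (le_abs_self _)
          push_cast
          linarith
        · have hu' : u = toLex (Sum.inr v) := by rw [← hu]; rfl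
          subst hu'
          rw [ht_lex_inr hc1 h.card]
          have := hk2 v
          have e : ((1 : ℕ) : ℝ) + (((1 : ℕ) : ℝ) + ht P n v) - (1 + (1 + (n : ℝ)) + 1) / 2 =
              ht P n v - ((n : ℝ) - 1) / 2 := by
            push_cast; ring
          rw [e]
          exact this)
    refine ⟨1 + (1 + n) + 1, (Fin 1 ⊕ₗ (Fin 1 ⊕ₗ P)) ⊕ Fin 1, inferInstance, inferInstance,
      by omega, ?_⟩
    have e : (((1 + (1 + n) : ℕ) : ℝ) + 1) / 2 * (((1 + (1 + n) : ℕ) : ℝ) + 2) /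
        (((1 + (1 + n) : ℕ) : ℝ) + 1) = (((1 + (1 + n) + 1 : ℕ) : ℝ) + 1) / 2 := by
      push_cast
      field_simp
      ring
    rw [e] at h3
    exact h3

end

theorem exists_GP (w : ℕ) (hw : 1 ≤ w) : ∃ (n : ℕ) (P : Type) (_ : Fintype P)
    (_ : PartialOrder P), n + 1 ≤ 3 * w - 1 ∧
      GP P n w (((n : ℝ) + 1) / 2) (1 / 2 - 1 / (12 * (w : ℝ) - 8)) := by
  induction w, hw using Nat.le_induction with
  | base =>
    refine ⟨1, Fin 1, inferInstance, inferInstance, by omega, ⟨Tm.one, Rep.one _ ⟨OrderIso.refl _⟩⟩,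
      le_rfl, by norm_num, by simp, width_one, fun y => by rw [ht_one], ?_, ?_⟩
    · intro y z hyz
      exact absurd (Subsingleton.elim y z) hyz
    · have : Nonempty (Fin 1) := ⟨0⟩
      rw [balance_chain (fun x y => Or.inl (by rw [Subsingleton.elim x y]))]
      norm_num
  | succ w hw ih =>
    obtain ⟨n, P, i1, i2, hn, h⟩ := ih
    have hw1 : (1 : ℝ) ≤ w := by exact_mod_cast hw
    obtain ⟨m, Q, i3, i4, hm, hq⟩ := h.step hw hn (by
      have : 1 / (12 * ((w : ℝ) + 1) - 8) ≤ 1 / (12 * (w : ℝ) - 8) := by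
        apply one_div_le_one_div_of_le
        · linarith
        · linarith
      linarith)
    refine ⟨m, Q, i3, i4, hm, ?_⟩
    push_cast
    exact hq

theorem dSPI_upper (w : ℕ) (hw : 1 ≤ w) : dSPI w ≤ 1 / 2 - 1 / (12 * (w : ℝ) - 8) := by
  obtain ⟨n, P, i1, i2, -, h⟩ := exists_GP w hw
  obtain ⟨t, ht1⟩ := h.rep
  exact (dSPI_le hw P ht1.isSPI h.wid).trans h.bal

end Pool.Agent.Q289.SPI
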