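import Mathlib
import Pool.Agent.Q289.SPI.Siz
import Pool.Agent.Q289.SPI.Up

set_option autoImplicit false

/-!
# Finitely many balance constants below every `c < 1/2`; the infimum is a minimum
-/

open Finset

namespace Pool.Agent.Q289.SPI

open Pool.Agent.H13R3.WB Pool.Agent.H931R3.Bal Pool.Agent.TH447.KS

/-- balance constants of the nonempty posets with at most `N` elements -/
def VN (N : ℕ) : Set ℝ := {d | ∃ (P : Type) (_ : Fintype P) (_ : PartialOrder P),
  Nonempty P ∧ Fintype.card P ≤ N ∧ balance P = d}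

/-- orders on `Fin n` -/
def IsPo' {n : ℕ} (r : Fin n → Fin n → Prop) : Prop :=
  (∀ a, r a a) ∧ (∀ a b c, r a b → r b c → r a c) ∧ (∀ a b, r a b → r b a → a = b)

/-- a copy of `Fin n` without its order -/
def CU (n : ℕ) : Type := Fin n

instance (n : ℕ) : Fintype (CU n) := inferInstanceAs (Fintype (Fin n))

/-- the order given by a relation -/
@[reducible] def poU {n : ℕ} (r : Fin n → Fin n → Prop) (h : IsPo' r) : PartialOrder (CU n) where
  le a b := r a b
  le_refl := h.1
  le_trans := h.2.1
  le_antisymm := h.2.2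

/-- balance constant of a relation -/
noncomputable def balU {n : ℕ} (r : {r : Fin n → Fin n → Prop // IsPo' r}) : ℝ :=
  letI : PartialOrder (CU n) := poU r.1 r.2
  balance (CU n)

lemma VN_finite (N : ℕ) : (VN N).Finite := by
  have h : VN N ⊆ ⋃ n ∈ Finset.range (N + 1), Set.range (balU (n := n)) := by
    rintro d ⟨P, i1, i2, hne, hc, rfl⟩
    simp only [Set.mem_iUnion, Set.mem_range]
    refine ⟨Fintype.card P, by rw [Finset.mem_range]; omega, ?_⟩
    set e := Fintype.equivFin P with he
    have hpo : IsPo' (fun a b => e.symm a ≤ e.symm b) :=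
      ⟨fun a => le_rfl, fun a b c h1 h2 => h1.trans h2,
        fun a b h1 h2 => e.symm.injective (le_antisymm h1 h2)⟩
    refine ⟨⟨_, hpo⟩, ?_⟩
    letI : PartialOrder (CU (Fintype.card P)) := poU _ hpo
    have f : P ≃o CU (Fintype.card P) :=
      { toEquiv := e
        map_rel_iff' := by
          intro a b
          show e.symm (e a) ≤ e.symm (e b) ↔ a ≤ b
          simp }
    have hne' : Nonempty (CU (Fintype.card P)) := hne.map f
    exact le_antisymm (balance_iso f.symm) (balance_iso f)
  refine Set.Finite.subset ?_ h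
  apply Set.Finite.biUnion (Finset.finite_toSet _)
  intro n _
  exact Set.finite_range _

lemma balance_lex {A B : Type} [Fintype A] [PartialOrder A] [Fintype B] [PartialOrder B]
    [Nonempty A] [Nonempty B] : balance (A ⊕ₗ B) = balance A ∨ balance (A ⊕ₗ B) = balance B := by
  have ne : Nonempty (A ⊕ₗ B) := ⟨toLex (Sum.inl (Classical.arbitrary A))⟩
  have h1 : balance (A ⊕ₗ B) ≤ max (balance A) (balance B) := by
    apply balance_le_pairs card_lexS
    intro x y
    rcases hx : ofLex x with u | u <;> rcases hy : ofLex y with v | v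
    · have hx' : x = toLex (Sum.inl u) := by rw [← hx]; rfl
      have hy' : y = toLex (Sum.inl v) := by rw [← hy]; rfl
      subst hx' hy'
      rw [pr_lex_inl rfl rfl, pr_lex_inl rfl rfl]
      exact (pairs_le rfl u v).trans (le_max_left _ _)
    · have hx' : x = toLex (Sum.inl u) := by rw [← hx]; rfl
      have hy' : y = toLex (Sum.inr v) := by rw [← hy]; rfl
      subst hx' hy'
      refine (min_le_right _ _).trans ?_
      rw [pr_zero_of_lt (Sum.Lex.inl_lt_inr u v)]
      exact balance_nonneg.trans (le_max_left _ _)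
    · have hx' : x = toLex (Sum.inr u) := by rw [← hx]; rfl
      have hy' : y = toLex (Sum.inl v) := by rw [← hy]; rfl
      subst hx' hy'
      refine (min_le_left _ _).trans ?_
      rw [pr_zero_of_lt (Sum.Lex.inl_lt_inr v u)]
      exact balance_nonneg.trans (le_max_left _ _)
    · have hx' : x = toLex (Sum.inr u) := by rw [← hx]; rfl
      have hy' : y = toLex (Sum.inr v) := by rw [← hy]; rfl
      subst hx' hy'
      rw [pr_lex_inr rfl rfl, pr_lex_inr rfl rfl]
      exact (pairs_le rfl u v).trans (le_max_right _ _)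
  have h2 : balance A ≤ balance (A ⊕ₗ B) := balance_lex_left
  have h3 : balance B ≤ balance (A ⊕ₗ B) := balance_lex_right
  rcases le_total (balance A) (balance B) with h | h
  · rw [max_eq_right h] at h1
    exact Or.inr (le_antisymm h1 h3)
  · rw [max_eq_left h] at h1
    exact Or.inl (le_antisymm h1 h2)

theorem bal_mem {p q : ℕ} (hp : 0 < p) (hpq : 2 * p < q) {t : Tm} {P : Type} [PartialOrder P]
    (h : Rep t P) : ∀ [Fintype P], balance P < (p : ℝ) / q →
      balance P ∈ VN (max 1 ⌊Nb ((p : ℝ) / q)⌋₊) := by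
  have hq : 0 < q := by omega
  induction h with
  | one P e =>
    intro _ _
    obtain ⟨e⟩ := e
    refine ⟨P, inferInstance, inferInstance, ⟨e.symm 0⟩, ?_, rfl⟩
    rw [Fintype.card_congr e.toEquiv]
    simp
  | ser a b A B P hA hB e ihA ihB =>
    intro hP hlt
    obtain ⟨e⟩ := e
    have fA : Finite A := Finite.of_injective (fun x : A => e.symm (toLex (Sum.inl x)))
      (fun a b h => Sum.inl_injective (toLex.injective (e.symm.injective h)))
    have fB : Finite B := Finite.of_injective (fun x : B => e.symm (toLex (Sum.inr x)))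
      (fun a b h => Sum.inr_injective (toLex.injective (e.symm.injective h)))
    have := Fintype.ofFinite A
    have := Fintype.ofFinite B
    have nA := hA.nonempty
    have nB := hB.nonempty
    have nAB : Nonempty (A ⊕ₗ B) := ⟨toLex (Sum.inl nA.some)⟩
    have nP : Nonempty P := ⟨e.symm (toLex (Sum.inl nA.some))⟩
    have heq : balance P = balance (A ⊕ₗ B) := le_antisymm (balance_iso e) (balance_iso e.symm)
    rcases balance_lex (A := A) (B := B) with h1 | h1
    · rw [heq, h1] at hlt ⊢
      exact ihA hlt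
    · rw [heq, h1] at hlt ⊢
      exact ihB hlt
  | par a A P hA e ihA =>
    intro hP hlt
    have hR : Rep (Tm.par a) P := Rep.par a A P hA e
    have hs := hR.spec
    have hg := hs.lo p q hq (by omega) hlt
    have h1 := (blocks_bounded hp hpq _ hg (mk (fl a)) (by simp [fl])).2
    refine ⟨P, inferInstance, inferInstance, hs.ne, ?_, rfl⟩
    rw [hs.card]
    have e1 : wsz (fl (Tm.par a)) = (mk (fl a)).s := by simp [fl, wsz]
    rw [e1]
    exact (Nat.le_floor h1).trans (le_max_right _ _)

/-- finitely many balance constants below `c < 1/2` -/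
theorem finite_below (c : ℝ) (hc : c < 1 / 2) : {d : ℝ | d < c ∧
    ∃ (P : Type) (_ : Fintype P) (_ : PartialOrder P), IsSPI P ∧ balance P = d}.Finite := by
  obtain ⟨k, hk⟩ := exists_nat_gt (max 2 (1 / (1 - 2 * c)))
  have hk2 : (2 : ℝ) < k := (le_max_left _ _).trans_lt hk
  have hk3 : 1 / (1 - 2 * c) < k := (le_max_right _ _).trans_lt hk
  have hkn : 2 < k := by exact_mod_cast hk2
  have hc1 : 0 < 1 - 2 * c := by linarith
  have hck : c ≤ ((k - 1 : ℕ) : ℝ) / (2 * k : ℕ) := by
    rw [div_lt_iff₀ hc1] at hk3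
    rw [le_div_iff₀ (by push_cast; linarith)]
    push_cast [Nat.cast_sub (show 1 ≤ k by omega)]
    linarith
  refine (VN_finite (max 1 ⌊Nb (((k - 1 : ℕ) : ℝ) / (2 * k : ℕ))⌋₊)).subset ?_
  rintro d ⟨hd, P, i1, i2, hP, rfl⟩
  obtain ⟨t, ht⟩ := exists_term hP.1 hP.2
  exact bal_mem (by omega) (by omega) ht (hd.trans_le hck)

/-- the infimum is attained -/
theorem attained (w : ℕ) (hw : 1 ≤ w) : ∃ (P : Type) (_ : Fintype P) (_ : PartialOrder P),
    IsSPI P ∧ HasWidth P w ∧ balance P = dSPI w := by
  have hw1 : (1 : ℝ) ≤ w := by exact_mod_cast hw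
  have hlt : dSPI w < 1 / 2 := by
    refine (dSPI_upper w hw).trans_lt ?_
    have : (0 : ℝ) < 1 / (12 * (w : ℝ) - 8) := by
      apply div_pos (by norm_num); linarith
    linarith
  obtain ⟨c, hc1, hc2⟩ := exists_between hlt
  set S : Set ℝ := {d : ℝ | ∃ (P : Type) (_ : Fintype P) (_ : PartialOrder P), IsSPI P ∧
    HasWidth P w ∧ balance P = d} with hS
  have hSne : S.Nonempty := by
    obtain ⟨P, i1, i2, hP⟩ := exists_real (antiT (w - 1))
    have h1 := hP.spec.wid
    rw [wwd_antiT, Nat.sub_add_cancel hw] at h1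
    exact ⟨_, P, i1, i2, hP.isSPI, h1, rfl⟩
  have hinf : dSPI w = sInf S := rfl
  have hfin : (S ∩ {d | d < c}).Finite := by
    refine (finite_below c hc2).subset ?_
    rintro d ⟨⟨P, i1, i2, h1, h2, h3⟩, hd⟩
    exact ⟨hd, P, i1, i2, h1, h3⟩
  obtain ⟨d0, hd0, hd0c⟩ := exists_lt_of_csInf_lt hSne (by rw [← hinf]; exact hc1)
  obtain ⟨m, hm, hmin⟩ := Set.exists_min_image (S ∩ {d | d < c}) id hfin ⟨d0, hd0, hd0c⟩
  have hbdd : BddBelow S := by
    refine ⟨0, ?_⟩
    rintro d ⟨Q, _, _, _, h4, rfl⟩
    have := HasWidth.ne h4 hw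
    exact balance_nonneg
  have h1 : m = sInf S := by
    apply le_antisymm
    · apply le_csInf hSne
      intro d hd
      rcases lt_or_ge d c with h | h
      · exact hmin d ⟨hd, h⟩
      · exact (le_of_lt (show m < c from hm.2)).trans h
    · exact csInf_le hbdd hm.1
  obtain ⟨P, i1, i2, h2, h3, h4⟩ := hm.1
  exact ⟨P, i1, i2, h2, h3, by rw [h4, h1, hinf]⟩

end Pool.Agent.Q289.SPI
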