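import Mathlib
import Pool.Agent.Q289.SPI.Up
import Pool.Agent.TH447.KS.IntFin

set_option autoImplicit false

/-!
# The lower bound `1/2 - 3 (1 + log w)/w` for series-parallel interval orders of width `w`
-/

open Finset

namespace Pool.Agent.Q289.SPI

open Pool.Agent.H13R3.WB Pool.Agent.H931R3.Bal Pool.Agent.TH447.KS

/-- incomparable elements are nested -/
def Nest (P : Type) [PartialOrder P] : Prop :=
  ∀ x y : P, ¬ x < y → ¬ y < x →
    ((∀ s, s < x → s < y) ∧ (∀ s, x < s → y < s)) ∨ ((∀ s, s < y → s < x) ∧ (∀ s, y < s → x < s))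

lemma Nest.iso {P Q : Type} [PartialOrder P] [PartialOrder Q] (h : Nest Q) (e : P ≃o Q) :
    Nest P := by
  intro x y h1 h2
  rcases h (e x) (e y) (by rwa [e.lt_iff_lt]) (by rwa [e.lt_iff_lt]) with ⟨h3, h4⟩ | ⟨h3, h4⟩
  · left
    exact ⟨fun s hs => e.lt_iff_lt.1 (h3 _ (e.lt_iff_lt.2 hs)),
      fun s hs => e.lt_iff_lt.1 (h4 _ (e.lt_iff_lt.2 hs))⟩
  · right
    exact ⟨fun s hs => e.lt_iff_lt.1 (h3 _ (e.lt_iff_lt.2 hs)),
      fun s hs => e.lt_iff_lt.1 (h4 _ (e.lt_iff_lt.2 hs))⟩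

lemma lex_cases {A B : Type} (x : A ⊕ₗ B) :
    (∃ u : A, x = toLex (Sum.inl u)) ∨ ∃ u : B, x = toLex (Sum.inr u) := by
  rcases hx : ofLex x with u | u
  · exact Or.inl ⟨u, by rw [← hx]; rfl⟩
  · exact Or.inr ⟨u, by rw [← hx]; rfl⟩

lemma nest_lex {A B : Type} [PartialOrder A] [PartialOrder B] (hA : Nest A) (hB : Nest B) :
    Nest (A ⊕ₗ B) := by
  have key1 : ∀ a b : A, ((∀ s, s < a → s < b) ∧ (∀ s, a < s → b < s)) →
      (∀ s : A ⊕ₗ B, s < toLex (Sum.inl a) → s < toLex (Sum.inl b)) ∧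
      (∀ s : A ⊕ₗ B, toLex (Sum.inl a) < s → toLex (Sum.inl b) < s) := by
    rintro a b ⟨h1, h2⟩
    constructor
    · intro s hs
      rcases lex_cases s with ⟨u, rfl⟩ | ⟨u, rfl⟩
      · exact Sum.Lex.inl_lt_inl_iff.2 (h1 u (Sum.Lex.inl_lt_inl_iff.1 hs))
      · exact absurd hs Sum.Lex.not_inr_lt_inl
    · intro s hs
      rcases lex_cases s with ⟨u, rfl⟩ | ⟨u, rfl⟩
      · exact Sum.Lex.inl_lt_inl_iff.2 (h2 u (Sum.Lex.inl_lt_inl_iff.1 hs))
      · exact Sum.Lex.inl_lt_inr _ _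
  have key2 : ∀ a b : B, ((∀ s, s < a → s < b) ∧ (∀ s, a < s → b < s)) →
      (∀ s : A ⊕ₗ B, s < toLex (Sum.inr a) → s < toLex (Sum.inr b)) ∧
      (∀ s : A ⊕ₗ B, toLex (Sum.inr a) < s → toLex (Sum.inr b) < s) := by
    rintro a b ⟨h1, h2⟩
    constructor
    · intro s hs
      rcases lex_cases s with ⟨u, rfl⟩ | ⟨u, rfl⟩
      · exact Sum.Lex.inl_lt_inr _ _
      · exact Sum.Lex.inr_lt_inr_iff.2 (h1 u (Sum.Lex.inr_lt_inr_iff.1 hs))
    · intro s hs
      rcases lex_cases s with ⟨u, rfl⟩ | ⟨u, rfl⟩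
      · exact absurd hs Sum.Lex.not_inr_lt_inl
      · exact Sum.Lex.inr_lt_inr_iff.2 (h2 u (Sum.Lex.inr_lt_inr_iff.1 hs))
  intro x y h1 h2
  rcases lex_cases x with ⟨a, rfl⟩ | ⟨a, rfl⟩ <;> rcases lex_cases y with ⟨b, rfl⟩ | ⟨b, rfl⟩
  · rcases hA a b (fun h => h1 (Sum.Lex.inl_lt_inl_iff.2 h))
      (fun h => h2 (Sum.Lex.inl_lt_inl_iff.2 h)) with h | h
    · exact Or.inl (key1 a b h)
    · exact Or.inr (key1 b a h)
  · exact absurd (Sum.Lex.inl_lt_inr a b) h1
  · exact absurd (Sum.Lex.inl_lt_inr b a) h2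
  · rcases hB a b (fun h => h1 (Sum.Lex.inr_lt_inr_iff.2 h))
      (fun h => h2 (Sum.Lex.inr_lt_inr_iff.2 h)) with h | h
    · exact Or.inl (key2 a b h)
    · exact Or.inr (key2 b a h)

lemma nest_par {A : Type} [PartialOrder A] (hA : Nest A) : Nest (A ⊕ Fin 1) := by
  have key1 : ∀ a b : A, ((∀ s, s < a → s < b) ∧ (∀ s, a < s → b < s)) →
      (∀ s : A ⊕ Fin 1, s < Sum.inl a → s < Sum.inl b) ∧
      (∀ s : A ⊕ Fin 1, Sum.inl a < s → Sum.inl b < s) := by
    rintro a b ⟨h1, h2⟩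
    constructor
    · rintro (u | u) hs
      · exact Sum.inl_lt_inl_iff.2 (h1 u (Sum.inl_lt_inl_iff.1 hs))
      · exact absurd hs Sum.not_inr_lt_inl
    · rintro (u | u) hs
      · exact Sum.inl_lt_inl_iff.2 (h2 u (Sum.inl_lt_inl_iff.1 hs))
      · exact absurd hs Sum.not_inl_lt_inr
  have key2 : ∀ (z : Fin 1) (y : A ⊕ Fin 1), (∀ s : A ⊕ Fin 1, s < Sum.inr z → s < y) ∧
      (∀ s : A ⊕ Fin 1, Sum.inr z < s → y < s) := by
    intro z y
    constructor
    · rintro (u | u) hs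
      · exact absurd hs Sum.not_inl_lt_inr
      · rw [Subsingleton.elim u z] at hs
        exact absurd hs (lt_irrefl _)
    · rintro (u | u) hs
      · exact absurd hs Sum.not_inr_lt_inl
      · rw [Subsingleton.elim u z] at hs
        exact absurd hs (lt_irrefl _)
  intro x y h1 h2
  rcases x with a | a
  · rcases y with b | b
    · rcases hA a b (fun h => h1 (Sum.inl_lt_inl_iff.2 h))
        (fun h => h2 (Sum.inl_lt_inl_iff.2 h)) with h | h
      · exact Or.inl (key1 a b h)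
      · exact Or.inr (key1 b a h)
    · exact Or.inr (key2 b _)
  · exact Or.inl (key2 a _)

lemma Rep.nest {t : Tm} {P : Type} [PartialOrder P] (h : Rep t P) : Nest P := by
  induction h with
  | one P e =>
    obtain ⟨e⟩ := e
    intro x y _ _
    have : x = y := e.injective (Subsingleton.elim _ _)
    subst this
    exact Or.inl ⟨fun _ h => h, fun _ h => h⟩
  | ser a b A B P _ _ e ihA ihB => exact (nest_lex ihA ihB).iso e.some
  | par a A P _ e ihA => exact (nest_par ihA).iso e.some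

section

variable {P : Type} [Fintype P] [PartialOrder P]

open Classical in
/-- number of comparable elements -/
noncomputable def cmp (x : P) : ℕ :=
  (univ.filter (fun s => s < x)).card + (univ.filter (fun s => x < s)).card

lemma nest_of_cmp (h : Nest P) {x y : P} (h1 : ¬ x < y) (h2 : ¬ y < x) (hc : cmp x ≤ cmp y) :
    (∀ s, s < x → s < y) ∧ (∀ s, x < s → y < s) := by
  classical
  rcases h x y h1 h2 with h3 | ⟨h3, h4⟩
  · exact h3
  · have e1 : univ.filter (fun s => s < y) ⊆ univ.filter (fun s => s < x) := by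
      intro s hs
      rw [mem_filter] at hs ⊢
      exact ⟨hs.1, h3 s hs.2⟩
    have e2 : univ.filter (fun s => y < s) ⊆ univ.filter (fun s => x < s) := by
      intro s hs
      rw [mem_filter] at hs ⊢
      exact ⟨hs.1, h4 s hs.2⟩
    have c1 := card_le_card e1
    have c2 := card_le_card e2
    unfold cmp at hc
    have f1 := eq_of_subset_of_card_le e1 (by
      convert (show (univ.filter (fun s => s < x)).card ≤ (univ.filter (fun s => s < y)).card by
        omega))
    have f2 := eq_of_subset_of_card_le e2 (by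
      convert (show (univ.filter (fun s => x < s)).card ≤ (univ.filter (fun s => y < s)).card by
        omega))
    constructor
    · intro s hs
      have : s ∈ univ.filter (fun s => s < x) := by rw [mem_filter]; exact ⟨mem_univ _, hs⟩
      rw [← f1, mem_filter] at this
      exact this.2
    · intro s hs
      have : s ∈ univ.filter (fun s => x < s) := by rw [mem_filter]; exact ⟨mem_univ _, hs⟩
      rw [← f2, mem_filter] at this
      exact this.2

omit [Fintype P] [PartialOrder P] in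
lemma exists_sorted' (A : Finset P) (f : P → ℕ) (k : ℕ) (hk : A.card = k + 1) :
    ∃ z : ℕ → P, (∀ i, z i ∈ A) ∧ (∀ i, i < k → z i ≠ z (i + 1)) ∧
      (∀ i, i < k → f (z i) ≤ f (z (i + 1))) := by
  obtain ⟨e0⟩ : Nonempty (Fin (k + 1) ≃ A) := ⟨(A.equivFinOfCardEq hk).symm⟩
  set σ := Tuple.sort (fun i => f (e0 i : P)) with hσ
  have hmono : Monotone ((fun i => f (e0 i : P)) ∘ σ) := Tuple.monotone_sort _
  refine ⟨fun n => (e0 (σ ⟨min n k, by omega⟩) : P), fun i => (e0 _).2, fun i hi h => ?_,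
    fun i hi => ?_⟩
  · have := σ.injective (e0.injective (Subtype.ext h))
    rw [Fin.mk.injEq] at this
    omega
  · apply hmono
    rw [Fin.mk_le_mk]
    omega

theorem spi_main (hN : Nest P) (h22 : ∀ a b c d : P, lt' P a b → lt' P c d →
    lt' P a d ∨ lt' P c b) {w : ℕ} (hwpos : 1 ≤ w)
    (hw : ∀ A : Finset P, (∀ a ∈ A, ∀ b ∈ A, ¬ lt' P a b) → A.card ≤ w)
    (A : Finset P) (hA : ∀ a ∈ A, ∀ b ∈ A, ¬ lt' P a b) (hAw : A.card = w)
    (hpos : 0 < 1 / 2 - 3 * (1 + Real.log w) / w) :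
    ∃ x y : P, x ≠ y ∧
      (1 / 2 - 3 * (1 + Real.log w) / w) * ((Lin (lt' P)).card : ℝ) ≤ cnt (lt' P) x y ∧
      (1 / 2 - 3 * (1 + Real.log w) / w) * ((Lin (lt' P)).card : ℝ) ≤ cnt (lt' P) y x := by
  have hw1 : (1 : ℝ) ≤ w := by exact_mod_cast hwpos
  have hw0 : (0 : ℝ) < w := by linarith
  have hlog : 0 ≤ Real.log w := Real.log_nonneg hw1
  have h6 : 6 * (1 + Real.log w) < w := by
    have : 3 * (1 + Real.log w) / w < 1 / 2 := by linarith
    rw [div_lt_iff₀ hw0] at this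
    linarith
  have hw7 : 6 < w := by
    have : (6 : ℝ) < w := by linarith
    exact_mod_cast this
  by_cases hbig : ∃ x, w * w ≤ inc (lt' P) x
  · obtain ⟨x, hx⟩ := hbig
    have hm : 6 * w < inc (lt' P) x := by nlinarith
    obtain ⟨z, hxz, h1, h2⟩ := ladder (r := lt' P) (fun a b c => lt_trans)
      (fun a => lt_irrefl a) h22 hw x hm
    have hmpos : (0 : ℝ) < inc (lt' P) x := by
      have : 0 < inc (lt' P) x := by omega
      exact_mod_cast this
    have hxR : (w : ℝ) * w ≤ inc (lt' P) x := by exact_mod_cast hx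
    have h3 : 3 * (w : ℝ) / inc (lt' P) x ≤ 3 * (1 + Real.log w) / w := by
      rw [div_le_div_iff₀ hmpos hw0]
      nlinarith [mul_nonneg hlog hmpos.le]
    have h4 : (1 / 2 - 3 * (1 + Real.log w) / w) * ((Lin (lt' P)).card : ℝ) ≤
        (1 / 2 - 3 * w / inc (lt' P) x) * ((Lin (lt' P)).card : ℝ) :=
      mul_le_mul_of_nonneg_right (by linarith) (Nat.cast_nonneg _)
    exact ⟨x, z, hxz, h4.trans h1, h4.trans h2⟩
  · push Not at hbig
    obtain ⟨k, hk⟩ : ∃ k, w = k + 1 := ⟨w - 1, by omega⟩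
    obtain ⟨z, hz1, hz2, hz3⟩ := exists_sorted' A cmp k (by rw [hAw, hk])
    obtain ⟨x₀, hx₀⟩ : A.Nonempty := by rw [← card_pos]; omega
    obtain ⟨xm, hxm, hmax⟩ := exists_max_image (univ : Finset P) (fun x => inc (lt' P) x)
      ⟨x₀, mem_univ _⟩
    set M := inc (lt' P) xm with hM
    have hk1 : 1 ≤ k := by omega
    have hnest : ∀ i, i < k → (∀ s, s < z i → s < z (i + 1)) ∧ (∀ s, z i < s → z (i + 1) < s) :=
      fun i hi => nest_of_cmp hN (hA _ (hz1 i) _ (hz1 (i + 1))) (hA _ (hz1 (i + 1)) _ (hz1 i))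
        (hz3 i hi)
    obtain ⟨i, hi, h⟩ := chain_pair (lt' P) z k hk1 (fun i _ j _ => hA _ (hz1 i) _ (hz1 j))
      (fun i _ j _ u t h1 h2 => by
        rcases h22 u (z i) (z j) t h1 h2 with h | h
        · exact h
        · exact absurd h (hA _ (hz1 j) _ (hz1 i)))
      (Or.inr fun i hi s hs => (hnest i hi).2 s hs)
      (Or.inr fun i hi s hs => (hnest i hi).1 s hs) M
      (fun i _ => hmax _ (mem_univ _))
    have hxy := hz2 i hi
    have hM1 : 1 ≤ M := by
      rw [hM, ← card_incS (lt_irrefl xm)]; omega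
    have hMlog : (harmonic M : ℝ) ≤ 1 + 2 * Real.log w := by
      refine (harmonic_le_one_add_log M).trans ?_
      have hMw : (M : ℝ) ≤ w * w := by exact_mod_cast (hbig xm).le
      have h1 : Real.log M ≤ Real.log (w * w) := by
        apply Real.log_le_log (by exact_mod_cast hM1)
        exact hMw
      rw [Real.log_mul hw0.ne' hw0.ne'] at h1
      linarith
    have hkpos : (0 : ℝ) < k := by exact_mod_cast hk1
    have hkw : (k : ℝ) = w - 1 := by rw [hk]; push_cast; ring
    have h1 : 2 * (Lin (lt' P)).card * (harmonic M : ℝ) / k ≤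
        2 * (3 * (1 + Real.log w) / w) * (Lin (lt' P)).card := by
      have h2 : (harmonic M : ℝ) / k ≤ 3 * (1 + Real.log w) / w := by
        rw [div_le_div_iff₀ hkpos hw0]
        calc (harmonic M : ℝ) * w ≤ (1 + 2 * Real.log w) * w :=
              mul_le_mul_of_nonneg_right hMlog hw0.le
          _ ≤ 3 * (1 + Real.log w) * k := by
            rw [hkw]
            nlinarith [mul_nonneg hlog hw0.le]
      calc 2 * (Lin (lt' P)).card * (harmonic M : ℝ) / k =
          2 * ((harmonic M : ℝ) / k) * (Lin (lt' P)).card := by ring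
        _ ≤ _ := by
          apply mul_le_mul_of_nonneg_right _ (Nat.cast_nonneg _)
          linarith
    obtain ⟨h2, h3⟩ := half_of_abs hxy (h.trans h1)
    exact ⟨z i, z (i + 1), hxy, h2, h3⟩

end

theorem spi_balance (P : Type) [Fintype P] [PartialOrder P] (hP : IsSPI P) (w : ℕ)
    (hw1 : 1 ≤ w) (hw : HasWidth P w) :
    1 / 2 - 3 * (1 + Real.log w) / w ≤ balance P := by
  obtain ⟨t, ht⟩ := exists_term hP.1 hP.2
  have hne := HasWidth.ne hw hw1
  obtain ⟨⟨A, hA, hAc⟩, hwid⟩ := hw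
  by_cases hpos : 0 < 1 / 2 - 3 * (1 + Real.log w) / w
  · obtain ⟨x, y, -, h1, h2⟩ := spi_main ht.nest (interval_22 hP.2) hw1
      (fun B hB => hwid B (anti_iff.2 hB)) A (anti_iff.1 hA) hAc hpos
    exact le_balance_of_cnt h1 h2
  · exact (not_lt.1 hpos).trans balance_nonneg

theorem dSPI_lower (w : ℕ) (hw : 1 ≤ w) : 1 / 2 - 3 * (1 + Real.log w) / w ≤ dSPI w :=
  dSPI_ge hw fun P _ _ h1 h2 => spi_balance P h1 w hw h2

/-- growth at distance `250 w (1 + log w)` -/
theorem dSPI_growth (w v : ℕ) (hw : 1 ≤ w) (hv : 250 * (w : ℝ) * (1 + Real.log w) ≤ v) :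
    dSPI w < dSPI v := by
  have hw1 : (1 : ℝ) ≤ w := by exact_mod_cast hw
  have hL : 0 ≤ Real.log w := Real.log_nonneg hw1
  set L := Real.log w with hLdef
  set x := 250 * (w : ℝ) * (1 + L) with hx
  have hxw : 250 * (w : ℝ) ≤ x := by rw [hx]; nlinarith
  have hxpos : 0 < x := by linarith
  have hvpos : (0 : ℝ) < v := hxpos.trans_le hv
  have hv1 : 1 ≤ v := by
    have : (0 : ℝ) < v := hvpos
    have : 0 < v := by exact_mod_cast this
    omega
  have hlogx : Real.log x ≤ 5.546 + 2 * L := by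
    rw [hx, Real.log_mul (by positivity) (by positivity), Real.log_mul (by norm_num) (by positivity)]
    have h1 : Real.log 250 ≤ 5.546 := by
      have h2 : Real.log 250 ≤ Real.log ((2 : ℝ) ^ (8 : ℕ)) :=
        Real.log_le_log (by norm_num) (by norm_num)
      rw [Real.log_pow] at h2
      have := Real.log_two_lt_d9
      push_cast at h2
      linarith
    have h3 : Real.log (1 + L) ≤ L := by
      have := Real.log_le_sub_one_of_pos (show 0 < 1 + L by linarith)
      linarith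
    linarith
  have hlogv : Real.log v ≤ Real.log x + (v / x - 1) := by
    have h1 : Real.log (v / x) ≤ v / x - 1 := Real.log_le_sub_one_of_pos (by positivity)
    rw [Real.log_div hvpos.ne' hxpos.ne'] at h1
    linarith
  refine (dSPI_upper w hw).trans_lt (lt_of_lt_of_le ?_ (dSPI_lower v hv1))
  have h12 : (0 : ℝ) < 12 * w - 8 := by linarith
  have key : 3 * (1 + Real.log v) / v < 1 / (12 * (w : ℝ) - 8) := by
    rw [div_lt_div_iff₀ hvpos h12]
    have h1 : 1 + Real.log v ≤ 5.546 + 2 * L + v / x := by linarith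
    have h0 : 0 ≤ 1 + Real.log v := by
      have : (0 : ℝ) ≤ Real.log v := Real.log_nonneg (by exact_mod_cast hv1)
      linarith
    have h2 : (w : ℝ) * (v / x) ≤ v / 250 := by
      rw [← mul_div_assoc, div_le_div_iff₀ hxpos (by norm_num)]
      nlinarith
    have h3 : 3 * (1 + Real.log v) * (12 * w - 8) ≤ 36 * w * (1 + Real.log v) := by nlinarith
    have h4 : 36 * w * (1 + Real.log v) ≤ 36 * (w * (5.546 + 2 * L)) + 36 * (w * (v / x)) := by
      nlinarith
    have h5 : (w : ℝ) * (5.546 + 2 * L) ≤ 5.546 / 250 * v := by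
      have : (w : ℝ) * (5.546 + 2 * L) ≤ 5.546 / 250 * x := by rw [hx]; nlinarith
      linarith
    linarith
  linarith

end Pool.Agent.Q289.SPI
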