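import Mathlib
import Pool.Agent.Q289.SPI.Rate
import Pool.Agent.Q289.SPI.D2
import Pool.Agent.Q289.SPI.D3
import Pool.Agent.Q289.SPI.D4
import Pool.Agent.Q289.SPI.D5
import Pool.Agent.Q289.SPI.D6
import Pool.Agent.Q289.SPI.D7

set_option autoImplicit false

/-!
# Minimal balance constants of series-parallel interval orders
-/

open Finset

namespace Pool.Agent.Q289.SPI

open Pool.Agent.H13R3.WB Pool.Agent.H931R3.Bal

theorem lower_of_cert {p q u v W : ℕ} {G : List (ℕ × List Bk)} {M : List ℕ} (hq : 0 < q)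
    (hpq : p ≤ q) (h0 : cert0 p q u v (M.length + 1) W G = true) (h1 : enumAll p q G M 0 = true)
    {w : ℕ} (hW : W < w) (P : Type) [Fintype P] [PartialOrder P] (hP : IsSPI P)
    (hw : HasWidth P w) : (p : ℝ) / q ≤ balance P := by
  by_contra hcon
  obtain ⟨t, ht⟩ := exists_term hP.1 hP.2
  have hs := ht.spec
  have h2 := blocks_mem h0 h1 t (hs.lo p q hq hpq (not_le.1 hcon))
  have h3 := wwd_le h0 h2
  have h4 := HasWidth.unique hs.wid hw
  omega

/-- test for balance constant at most `p / q` -/
def leB (p q : ℕ) : Tm → Bool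
  | .one => true
  | .ser a b => leB p q a && leB p q b
  | .par a => leB p q a && (whl 0 (fl a)).all (fun x =>
      Nat.ble (q * x.1) (p * (wsz (fl a) + 1) * x.2) ||
        Nat.ble ((q - p) * (wsz (fl a) + 1) * x.2) (q * x.1))

lemma leB_sound {p q : ℕ} : ∀ t, leB p q t = true → GLe p q t
  | .one, _ => trivial
  | .ser a b, h => by
    simp only [leB, Bool.and_eq_true] at h
    exact ⟨leB_sound a h.1, leB_sound b h.2⟩
  | .par a, h => by
    simp only [leB, Bool.and_eq_true, List.all_eq_true, Bool.or_eq_true, Nat.ble_eq] at h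
    refine ⟨leB_sound a h.1, fun x hx hm => ?_⟩
    rcases h.2 x hx with h3 | h3
    · exact absurd hm.1 (not_lt.2 h3)
    · exact absurd hm.2 (not_lt.2 h3)

theorem exists_le {p q : ℕ} (hq : 0 < q) (hpq : p ≤ q) (t : Tm) (h : leB p q t = true) {w : ℕ}
    (hw : wwd (fl t) = w) : ∃ (P : Type) (_ : Fintype P) (_ : PartialOrder P), IsSPI P ∧
      HasWidth P w ∧ balance P ≤ (p : ℝ) / q := by
  obtain ⟨P, i1, i2, hP⟩ := exists_real t
  have hs := hP.spec
  refine ⟨P, i1, i2, hP.isSPI, ?_, hs.up p q hq hpq (leB_sound t h)⟩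
  rw [← hw]
  exact hs.wid

/-- the value is attained -/
theorem value {p q w : ℕ} (hw : 1 ≤ w)
    (h1 : ∀ (P : Type) [Fintype P] [PartialOrder P], IsSPI P → HasWidth P w →
      (p : ℝ) / q ≤ balance P)
    (h2 : ∃ (P : Type) (_ : Fintype P) (_ : PartialOrder P), IsSPI P ∧
      HasWidth P w ∧ balance P ≤ (p : ℝ) / q) :
    dSPI w = (p : ℝ) / q ∧ ∃ (P : Type) (_ : Fintype P) (_ : PartialOrder P), IsSPI P ∧
      HasWidth P w ∧ balance P = (p : ℝ) / q := by
  obtain ⟨P, i1, i2, h3, h4, h5⟩ := h2
  exact ⟨le_antisymm ((dSPI_le hw P h3 h4).trans h5) (dSPI_ge hw h1),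
    P, i1, i2, h3, h4, le_antisymm h5 (h1 P h3 h4)⟩

/-- the block of width two -/
def t2 : Tm := .par (.ser .one .one)
/-- the block of width three -/
def t3 : Tm := .par (.ser t2 t2)
/-- the block of width four -/
def t4 : Tm := .par (.ser t3 t3)
/-- the block of width five -/
def t5 : Tm := .par (.ser (.par (.ser .one (.par (.ser (.ser .one .one) t2))))
  (.par (.ser (.par (.ser t2 (.ser .one .one))) .one)))

/-- the block of width six -/
def t6 : Tm := .par (.ser (.par (.ser t2 (.par (.ser .one (.par (.ser (.ser .one .one) t2))))))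
  (.par (.ser (.par (.ser (.par (.ser t2 (.ser .one .one))) .one)) t2)))

lemma t2_le : leB 1 3 t2 = true := by decide +kernel
lemma t3_le : leB 8 21 t3 = true := by decide +kernel
lemma t4_le : leB 136 315 t4 = true := by decide +kernel
lemma t5_le : leB 4 9 t5 = true := by decide +kernel
lemma t6_le : leB 29 64 t6 = true := by decide +kernel
lemma t2_wd : wwd (fl t2) = 2 := by decide +kernel
lemma t3_wd : wwd (fl t3) = 3 := by decide +kernel
lemma t4_wd : wwd (fl t4) = 4 := by decide +kernel
lemma t5_wd : wwd (fl t5) = 5 := by decide +kernel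
lemma t6_wd : wwd (fl t6) = 6 := by decide +kernel

theorem val1 : dSPI 1 = 0 ∧ ∃ (P : Type) (_ : Fintype P) (_ : PartialOrder P), IsSPI P ∧
    HasWidth P 1 ∧ balance P = 0 := by
  have h := value (p := 0) (q := 1) (w := 1) le_rfl (fun P _ _ _ h => by
      have := HasWidth.ne h le_rfl
      simpa using balance_nonneg)
    (exists_le (by norm_num) (by norm_num) Tm.one rfl (by simp [fl, wwd, b1]))
  simpa using h

theorem val2 : dSPI 2 = 1 / 3 ∧ ∃ (P : Type) (_ : Fintype P) (_ : PartialOrder P), IsSPI P ∧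
    HasWidth P 2 ∧ balance P = 1 / 3 := by
  have h := value (p := 1) (q := 3) (w := 2) (by norm_num) (fun P _ _ h1 h2 =>
      lower_of_cert (by norm_num) (by norm_num) (M := blk2M) blk2_cert blk2_enum
        (by norm_num) P h1 h2)
    (exists_le (by norm_num) (by norm_num) t2 t2_le t2_wd)
  simpa using h

theorem val3 : dSPI 3 = 8 / 21 ∧ ∃ (P : Type) (_ : Fintype P) (_ : PartialOrder P), IsSPI P ∧
    HasWidth P 3 ∧ balance P = 8 / 21 := by
  have h := value (p := 8) (q := 21) (w := 3) (by norm_num) (fun P _ _ h1 h2 =>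
      lower_of_cert (by norm_num) (by norm_num) (M := blk3M) blk3_cert blk3_enum
        (by norm_num) P h1 h2)
    (exists_le (by norm_num) (by norm_num) t3 t3_le t3_wd)
  simpa using h

theorem val4 : dSPI 4 = 136 / 315 ∧ ∃ (P : Type) (_ : Fintype P) (_ : PartialOrder P), IsSPI P ∧
    HasWidth P 4 ∧ balance P = 136 / 315 := by
  have h := value (p := 136) (q := 315) (w := 4) (by norm_num) (fun P _ _ h1 h2 =>
      lower_of_cert (by norm_num) (by norm_num) (M := blk4M) blk4_cert blk4_enum
        (by norm_num) P h1 h2)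
    (exists_le (by norm_num) (by norm_num) t4 t4_le t4_wd)
  simpa using h

theorem val5 : dSPI 5 = 4 / 9 ∧ ∃ (P : Type) (_ : Fintype P) (_ : PartialOrder P), IsSPI P ∧
    HasWidth P 5 ∧ balance P = 4 / 9 := by
  have h := value (p := 4) (q := 9) (w := 5) (by norm_num) (fun P _ _ h1 h2 =>
      lower_of_cert (by norm_num) (by norm_num) (M := blk5M) blk5_cert blk5_enum
        (by norm_num) P h1 h2)
    (exists_le (by norm_num) (by norm_num) t5 t5_le t5_wd)
  simpa using h

theorem val6 : dSPI 6 = 29 / 64 ∧ ∃ (P : Type) (_ : Fintype P) (_ : PartialOrder P), IsSPI P ∧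
    HasWidth P 6 ∧ balance P = 29 / 64 := by
  have h := value (p := 29) (q := 64) (w := 6) (by norm_num) (fun P _ _ h1 h2 =>
      lower_of_cert (by norm_num) (by norm_num) (M := blk6M) blk6_cert blk6_enum
        (by norm_num) P h1 h2)
    (exists_le (by norm_num) (by norm_num) t6 t6_le t6_wd)
  simpa using h

theorem low7 (w : ℕ) (hw : 7 ≤ w) (P : Type) [Fintype P] [PartialOrder P] (h1 : IsSPI P)
    (h2 : HasWidth P w) : 34 / 75 ≤ balance P := by
  have := lower_of_cert (by norm_num) (by norm_num) (M := blk7M) blk7_cert blk7_enum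
    (by omega) P h1 h2
  simpa using this

/-- a poset of the class of width `w + 1` contains one of width `w` with balance constant not
larger -/
theorem sub_width {t : Tm} {P : Type} [PartialOrder P] (h : Rep t P) :
    ∀ [Fintype P], ∀ w : ℕ, 1 ≤ w → wwd (fl t) = w + 1 →
      ∃ (Q : Type) (_ : Fintype Q) (_ : PartialOrder Q), IsSPI Q ∧ HasWidth Q w ∧
        balance Q ≤ balance P := by
  induction h with
  | one P e =>
    intro _ w hw h1
    simp only [fl, wwd, b1] at h1
    omega
  | ser a b A B P hA hB e ihA ihB =>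
    intro hP w hw h1
    obtain ⟨e⟩ := e
    have fA : Finite A := Finite.of_injective (fun x : A => e.symm (toLex (Sum.inl x)))
      (fun a b h => Sum.inl_injective (toLex.injective (e.symm.injective h)))
    have fB : Finite B := Finite.of_injective (fun x : B => e.symm (toLex (Sum.inr x)))
      (fun a b h => Sum.inr_injective (toLex.injective (e.symm.injective h)))
    have := Fintype.ofFinite A
    have := Fintype.ofFinite B
    have nA := hA.nonempty
    have nB := hB.nonempty
    have nAB : Nonempty (A ⊕ₗ B) := ⟨toLex (Sum.inl nA.some)⟩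
    have hle := balance_iso e.symm
    simp only [fl, wwd_append] at h1
    rcases le_total (wwd (fl a)) (wwd (fl b)) with h2 | h2
    · rw [max_eq_right h2] at h1
      obtain ⟨Q, i1, i2, h3, h4, h5⟩ := ihB w hw h1
      exact ⟨Q, i1, i2, h3, h4, h5.trans (balance_lex_right.trans hle)⟩
    · rw [max_eq_left h2] at h1
      obtain ⟨Q, i1, i2, h3, h4, h5⟩ := ihA w hw h1
      exact ⟨Q, i1, i2, h3, h4, h5.trans (balance_lex_left.trans hle)⟩
  | par a A P hA e ihA =>
    intro hP w hw h1
    obtain ⟨e⟩ := e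
    have fA : Finite A := Finite.of_injective (fun x : A => e.symm (Sum.inl x))
      (fun a b h => Sum.inl_injective (e.symm.injective h))
    have := Fintype.ofFinite A
    have nA := hA.nonempty
    have nA1 : Nonempty (A ⊕ Fin 1) := ⟨Sum.inr 0⟩
    have hle := balance_iso e.symm
    simp only [fl, wwd, mk, Nat.max_zero] at h1
    have h2 : wwd (fl a) = w := by omega
    have hs := hA.spec
    exact ⟨A, inferInstance, inferInstance, hA.isSPI, by rw [← h2]; exact hs.wid,
      balance_sum_left.trans hle⟩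

theorem dSPI_mono (w : ℕ) (hw : 1 ≤ w) : dSPI w ≤ dSPI (w + 1) := by
  apply dSPI_ge (by omega)
  intro P _ _ h1 h2
  obtain ⟨t, ht⟩ := exists_term h1.1 h1.2
  obtain ⟨Q, i1, i2, h3, h4, h5⟩ := sub_width ht w hw (HasWidth.unique ht.spec.wid h2)
  exact (dSPI_le hw Q h3 h4).trans h5

end Pool.Agent.Q289.SPI
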